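import Pool.Agent.H681R2.GaugeMeas

/-!
# The dichotomy for gauges
-/

set_option autoImplicit false

namespace Pool.Agent.H681R2

open Set MeasureTheory Measure Cardinal Topology
open scoped ENNReal NNReal

variable {f : ℝ≥0 → ℝ≥0}

/-- If `liminf f(t)/t < ∞` then unit intervals have finite measure. -/
lemma gaugeMeas_Icc_lt_top {K : ℝ≥0}
    (hK : ∀ ε : ℝ≥0, 0 < ε → ∃ t : ℝ≥0, 0 < t ∧ t < ε ∧ f t ≤ K * t) (hf : IsGauge f) (n : ℤ) :
    gaugeMeas f (Icc (n : ℝ) (n + 1)) ≤ 2 * K := by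
  refine iSup₂_le fun δ hδ => ?_
  obtain ⟨t, ht0, htδ, hft⟩ := hK (min δ 1) (lt_min hδ one_pos)
  have ht0' : (0 : ℝ) < t := ht0
  have ht1 : (t : ℝ) < 1 := by exact_mod_cast htδ.trans_le (min_le_right _ _)
  set N : ℕ := ⌈(1 : ℝ) / t⌉₊ with hN
  let U : ℕ → Set ℝ := fun i => if i < N then Icc ((n : ℝ) + i * t) (n + (i + 1) * t) else ∅
  have hdiam : ∀ i, Metric.ediam (U i) = if i < N then (t : ℝ≥0∞) else 0 := by
    intro i
    simp only [U]
    split_ifs with h
    · rw [Real.ediam_Icc]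
      have : (n : ℝ) + (i + 1) * t - (n + i * t) = t := by ring
      rw [this, ENNReal.ofReal_coe_nnreal]
    · simp
  refine iInf_le_of_le U (iInf_le_of_le ?_ (iInf_le_of_le ?_ ?_))
  · intro x hx
    have hx0 : 0 ≤ x - n := by linarith [hx.1]
    have hx1 : x - n ≤ 1 := by linarith [hx.2]
    have hN1 : (1 : ℝ) / t ≤ N := Nat.le_ceil _
    have hNpos : 0 < N := Nat.ceil_pos.mpr (by positivity)
    rcases lt_or_ge (⌊(x - n) / t⌋₊) N with h | h
    · refine mem_iUnion.mpr ⟨⌊(x - n) / t⌋₊, ?_⟩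
      simp only [U, if_pos h]
      have h1 := Nat.floor_le (div_nonneg hx0 ht0'.le)
      have h2 := Nat.lt_floor_add_one ((x - n) / (t : ℝ))
      rw [le_div_iff₀ ht0'] at h1
      rw [div_lt_iff₀ ht0'] at h2
      constructor <;> linarith
    · -- then `x = n + 1` and `N t = 1`
      refine mem_iUnion.mpr ⟨N - 1, ?_⟩
      have h0 : N - 1 < N := by omega
      simp only [U, if_pos h0]
      have h1 := Nat.floor_le (div_nonneg hx0 ht0'.le)
      have h3 : (N : ℝ) ≤ (x - n) / t := (Nat.cast_le.mpr h).trans h1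
      rw [le_div_iff₀ ht0'] at h3
      rw [div_le_iff₀ ht0'] at hN1
      have h4 : ((N - 1 : ℕ) : ℝ) = N - 1 := by
        rw [Nat.cast_sub (by omega)]; simp
      rw [h4]
      constructor
      · nlinarith
      · nlinarith
  · intro i
    rw [hdiam]
    split_ifs
    · exact_mod_cast (htδ.trans_le (min_le_left _ _)).le
    · exact zero_le
  · have h1 : ∀ i, (f (Metric.ediam (U i)).toNNReal : ℝ≥0∞) = if i < N then (f t : ℝ≥0∞) else 0 := by
      intro i
      rw [hdiam]
      split_ifs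
      · simp
      · simp [hf.zero]
    simp only [h1]
    rw [tsum_eq_sum (s := Finset.range N) (by
      intro i hi
      rw [if_neg (by simpa using hi)])]
    rw [Finset.sum_congr rfl (fun i hi => if_pos (Finset.mem_range.mp hi)), Finset.sum_const,
      Finset.card_range, nsmul_eq_mul]
    have h2 : (N : ℝ) ≤ 1 / t + 1 := (Nat.ceil_lt_add_one (by positivity)).le
    have h3 : (N : ℝ≥0) * f t ≤ 2 * K := by
      have h4 : (N : ℝ≥0) * f t ≤ N * (K * t) := by gcongr
      refine h4.trans ?_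
      rw [← NNReal.coe_le_coe]
      push_cast
      have h5 : (N : ℝ) * t ≤ 2 := by
        calc (N : ℝ) * t ≤ (1 / t + 1) * t := by gcongr
          _ = 1 + t := by field_simp
          _ ≤ 2 := by linarith
      have hK0 : (0 : ℝ) ≤ K := K.2
      nlinarith
    calc ((N : ℕ) : ℝ≥0∞) * (f t : ℝ≥0∞) = (((N : ℝ≥0) * f t : ℝ≥0) : ℝ≥0∞) := by push_cast; rfl
      _ ≤ ((2 * K : ℝ≥0) : ℝ≥0∞) := by exact_mod_cast h3
      _ = 2 * K := by push_cast; rfl

/-- The easy direction. -/
lemma exists_subset_of_liminf (hf : IsGauge f)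
    (hK : ∃ K : ℝ≥0, ∀ ε : ℝ≥0, 0 < ε → ∃ t : ℝ≥0, 0 < t ∧ t < ε ∧ f t ≤ K * t)
    (A : Set ℝ) (hA : 0 < gaugeMeas f A) :
    ∃ A₀ ⊆ A, 0 < gaugeMeas f A₀ ∧ gaugeMeas f A₀ < ⊤ := by
  obtain ⟨K, hK⟩ := hK
  have h1 : ∃ n : ℤ, 0 < gaugeMeas f (A ∩ Icc (n : ℝ) (n + 1)) := by
    by_contra hn
    push Not at hn
    have h2 : Measure.mkMetric (fun d => (f d.toNNReal : ℝ≥0∞)) (⋃ n : ℤ, A ∩ Icc (n : ℝ) (n + 1)) = 0 := by
      rw [measure_iUnion_null_iff]
      intro n
      rw [← gaugeMeas_eq hf]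
      exact le_antisymm (hn n) zero_le
    have h3 : A ⊆ ⋃ n : ℤ, A ∩ Icc (n : ℝ) (n + 1) := by
      intro x hx
      exact mem_iUnion.mpr ⟨⌊x⌋, hx, Int.floor_le x, (Int.lt_floor_add_one x).le⟩
    rw [gaugeMeas_eq hf, measure_mono_null h3 h2] at hA
    exact lt_irrefl _ hA
  obtain ⟨n, hn⟩ := h1
  refine ⟨_, inter_subset_left, hn, ?_⟩
  have h2 : gaugeMeas f (A ∩ Icc (n : ℝ) (n + 1)) ≤ gaugeMeas f (Icc (n : ℝ) (n + 1)) := by
    rw [gaugeMeas_eq hf, gaugeMeas_eq hf]
    exact measure_mono inter_subset_right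
  refine (h2.trans (gaugeMeas_Icc_lt_top hK hf n)).trans_lt ?_
  exact ENNReal.mul_lt_top (by simp) (by simp)

/-- The hard direction. -/
lemma exists_bad_set (hf : IsGauge f)
    (hK : ¬ ∃ K : ℝ≥0, ∀ ε : ℝ≥0, 0 < ε → ∃ t : ℝ≥0, 0 < t ∧ t < ε ∧ f t ≤ K * t) :
    ∃ A : Set ℝ, 0 < gaugeMeas f A ∧ ∀ A₀ ⊆ A, gaugeMeas f A₀ = 0 ∨ gaugeMeas f A₀ = ⊤ := by
  classical
  -- growth along powers of two
  have hgrow : ∀ j : ℕ, ∃ M : ℕ, ∀ m ≥ M, (2 : ℝ≥0) ^ j * ((2 : ℝ≥0)⁻¹) ^ (m + 1) ≤
      f (((2 : ℝ≥0)⁻¹) ^ (m + 1)) := by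
    intro j
    push Not at hK
    obtain ⟨ε, hε, h⟩ := hK (2 ^ j)
    obtain ⟨M, hM⟩ := exists_pow_lt_of_lt_one hε (y := (2 : ℝ≥0)⁻¹) (by
      rw [← NNReal.coe_lt_coe]; push_cast; norm_num)
    refine ⟨M, fun m hm => (h _ (by positivity) ?_).le⟩
    refine lt_of_le_of_lt ?_ hM
    apply pow_le_pow_of_le_one (by positivity) _ (by omega)
    rw [← NNReal.coe_le_coe]; push_cast; norm_num
  choose M hM using hgrow
  -- sparse positions
  let nn : ℕ → ℕ := fun j => 2 * ((∑ i ∈ Finset.range (j + 2), M i) + j)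
  have hnn : StrictMono nn := by
    refine strictMono_nat_of_lt_succ fun j => ?_
    simp only [nn]
    rw [Finset.sum_range_succ _ (j + 2)]
    omega
  have hnnM : ∀ j, M (j + 1) ≤ nn j := by
    intro j
    have : M (j + 1) ≤ ∑ i ∈ Finset.range (j + 2), M i :=
      Finset.single_le_sum (f := M) (fun _ _ => Nat.zero_le _) (Finset.mem_range.mpr (by omega))
    simp only [nn]
    omega
  let P : ℕ → Prop := fun i => ∃ j, nn j = i
  have hP : {i | P i}.Infinite := Set.infinite_range_of_injective hnn.injective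
  have hP' : {i | ¬ P i}.Infinite := by
    have h1 : range (fun k : ℕ => 2 * k + 1) ⊆ {i | ¬ P i} := by
      rintro _ ⟨k, rfl⟩ ⟨j, hj⟩
      simp only [nn] at hj
      omega
    exact (Set.infinite_range_of_injective (fun a b h => by simpa using h)).mono h1
  have hcount : ∀ m, M 0 ≤ m → (2 : ℝ≥0) ^ (Nat.count P m) * ((2 : ℝ≥0)⁻¹) ^ (m + 1) ≤
      f (((2 : ℝ≥0)⁻¹) ^ (m + 1)) := by
    intro m hm
    apply hM
    rcases Nat.eq_zero_or_pos (Nat.count P m) with h0 | hpos
    · rw [h0]; exact hm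
    · -- `nn (k - 1) < m`
      have h1 : nn (Nat.count P m - 1) < m := by
        by_contra hge
        have h2 : (Finset.range m).filter P ⊆ (Finset.range (Nat.count P m - 1)).image nn := by
          intro i hi
          rw [Finset.mem_filter, Finset.mem_range] at hi
          obtain ⟨him, j, rfl⟩ := hi
          refine Finset.mem_image.mpr ⟨j, Finset.mem_range.mpr ?_, rfl⟩
          by_contra hj
          have := hnn.monotone (not_lt.mp hj)
          omega
        have h3 : Nat.count P m ≤ Nat.count P m - 1 := by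
          calc Nat.count P m = ((Finset.range m).filter P).card :=
                Nat.count_eq_card_filter_range _ _
            _ ≤ _ := Finset.card_le_card h2
            _ ≤ (Finset.range (Nat.count P m - 1)).card := Finset.card_image_le
            _ = _ := Finset.card_range _
        omega
      have h2 := hnnM (Nat.count P m - 1)
      have h3 : Nat.count P m - 1 + 1 = Nat.count P m := by omega
      rw [h3] at h2
      omega
  obtain ⟨A, hA01, hA0, hAnull⟩ := exists_univNull P hP hP'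
  refine ⟨A, ?_, ?_⟩
  · -- positive measure
    have hkey : ∀ U : Set ℝ, Metric.ediam U ≤ (((2 : ℝ≥0)⁻¹ ^ (M 0) : ℝ≥0) : ℝ≥0∞) →
        volume (pReal P '' (U ∩ A)) ≤ 4 * (f (Metric.ediam U).toNNReal : ℝ≥0∞) := by
      intro U hU
      have hUtop : Metric.ediam U ≠ ⊤ := (hU.trans_lt ENNReal.coe_lt_top).ne
      rcases eq_or_ne (Metric.ediam U) 0 with h0 | h0
      · have h1 : (U ∩ A).Subsingleton :=
          (Metric.ediam_eq_zero_iff.mp h0).anti inter_subset_left
        have h2 : (pReal P '' (U ∩ A)).Subsingleton := h1.image _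
        rw [h2.measure_zero]
        exact zero_le
      · set t : ℝ≥0 := (Metric.ediam U).toNNReal with ht
        have htU : Metric.ediam U = t := (ENNReal.coe_toNNReal hUtop).symm
        have ht0 : 0 < t := ENNReal.toNNReal_pos h0 hUtop
        have ht1 : t ≤ (2 : ℝ≥0)⁻¹ ^ (M 0) := by
          rw [htU] at hU
          exact_mod_cast hU
        have h21 : (2 : ℝ≥0)⁻¹ ≤ 1 := by
          rw [← NNReal.coe_le_coe]; push_cast; norm_num
        obtain ⟨m, hm1, hm2⟩ := exists_nat_pow_near_of_lt_one ht0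
          (ht1.trans (pow_le_one₀ (by positivity) h21)) (y := (2 : ℝ≥0)⁻¹) (by positivity)
          (by rw [← NNReal.coe_lt_coe]; push_cast; norm_num)
        have hmM : M 0 ≤ m := by
          by_contra hlt
          have h3 : (2 : ℝ≥0)⁻¹ ^ (M 0) ≤ (2 : ℝ≥0)⁻¹ ^ (m + 1) :=
            pow_le_pow_of_le_one (by positivity) h21 (by omega)
          exact absurd (hm1.trans_le (ht1.trans h3)) (lt_irrefl _)
        have h4 : Metric.ediam (U ∩ A) ≤ ENNReal.ofReal ((2 : ℝ) ^ m)⁻¹ := by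
          refine (Metric.ediam_mono inter_subset_left).trans ?_
          rw [htU]
          have : ENNReal.ofReal ((2 : ℝ) ^ m)⁻¹ = (((2 : ℝ≥0)⁻¹ ^ m : ℝ≥0) : ℝ≥0∞) := by
            rw [← ENNReal.ofReal_coe_nnreal]
            congr 1
            push_cast
            rw [inv_pow]
          rw [this]
          exact_mod_cast hm2
        refine (volume_pReal_image_le (inter_subset_right.trans hA01) h4).trans ?_
        have h5 : Nat.count P m + Nat.count (fun j => ¬ P j) m = m := by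
          rw [Nat.count_eq_card_filter_range, Nat.count_eq_card_filter_range,
            Finset.card_filter_add_card_filter_not, Finset.card_range]
        have h6 : ENNReal.ofReal ((2 : ℝ) ^ (Nat.count (fun j => ¬ P j) m))⁻¹ =
            ((2 * ((2 : ℝ≥0) ^ (Nat.count P m) * ((2 : ℝ≥0)⁻¹) ^ (m + 1)) : ℝ≥0) : ℝ≥0∞) := by
          rw [← ENNReal.ofReal_coe_nnreal]
          congr 1
          push_cast
          have h7 : (2 : ℝ) ^ m = 2 ^ (Nat.count P m) * 2 ^ (Nat.count (fun j => ¬ P j) m) := by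
            rw [← pow_add, h5]
          rw [pow_succ, inv_pow, h7]
          field_simp
        rw [h6]
        have h8 : (2 : ℝ≥0) ^ (Nat.count P m) * ((2 : ℝ≥0)⁻¹) ^ (m + 1) ≤ f t :=
          (hcount m hmM).trans (hf.mono hm1.le)
        have h9 : 2 * (2 * ((2 : ℝ≥0) ^ (Nat.count P m) * ((2 : ℝ≥0)⁻¹) ^ (m + 1))) ≤ 4 * f t := by
          calc 2 * (2 * ((2 : ℝ≥0) ^ (Nat.count P m) * ((2 : ℝ≥0)⁻¹) ^ (m + 1)))
              = 4 * ((2 : ℝ≥0) ^ (Nat.count P m) * ((2 : ℝ≥0)⁻¹) ^ (m + 1)) := by ring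
            _ ≤ 4 * f t := by gcongr
        exact_mod_cast h9
    have hpre : volume (pReal P '' A) ≤ 4 * gaugePre f ((2 : ℝ≥0)⁻¹ ^ (M 0)) A := by
      rw [gaugePre, ENNReal.mul_iInf_of_ne (by norm_num) (by norm_num)]
      refine le_iInf fun U => ?_
      rw [ENNReal.mul_iInf_of_ne (by norm_num) (by norm_num)]
      refine le_iInf fun hAU => ?_
      rw [ENNReal.mul_iInf_of_ne (by norm_num) (by norm_num)]
      refine le_iInf fun hd => ?_
      have h1 : pReal P '' A ⊆ ⋃ i, pReal P '' (U i ∩ A) := by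
        rintro _ ⟨y, hy, rfl⟩
        obtain ⟨i, hi⟩ := mem_iUnion.mp (hAU hy)
        exact mem_iUnion.mpr ⟨i, y, ⟨hi, hy⟩, rfl⟩
      refine (measure_mono h1).trans ((measure_iUnion_le _).trans ?_)
      rw [← ENNReal.tsum_mul_left]
      exact ENNReal.tsum_le_tsum fun i => hkey _ (hd i)
    have h1 : 0 < gaugePre f ((2 : ℝ≥0)⁻¹ ^ (M 0)) A := by
      rw [pos_iff_ne_zero]
      intro h0
      rw [h0, mul_zero] at hpre
      exact hA0 (le_antisymm hpre zero_le)
    exact h1.trans_le (le_iSup₂_of_le _ (by positivity) le_rfl)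
  · -- subsets of finite measure are null
    intro A₀ hA₀
    by_contra hcon
    push Not at hcon
    obtain ⟨h0, htop⟩ := hcon
    rw [gaugeMeas_eq hf] at h0 htop
    set μ : Measure ℝ := Measure.mkMetric (fun d => (f d.toNNReal : ℝ≥0∞)) with hμ
    let ν : Measure ℝ := μ.restrict (toMeasurable μ A₀)
    have hfin : IsFiniteMeasure ν := by
      refine ⟨?_⟩
      rw [Measure.restrict_apply_univ, measure_toMeasurable]
      exact htop.lt_top
    have hsing : ∀ t : ℝ, ν {t} = 0 := by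
      intro t
      have h1 := Measure.restrict_apply_le (μ := μ) (toMeasurable μ A₀) {t}
      rw [hμ, mkMetric_singleton hf t] at h1
      exact le_antisymm h1 zero_le
    have h1 := hAnull ν hfin hsing
    have h2 : ν A₀ = 0 := measure_mono_null hA₀ h1
    rw [Measure.restrict_apply' (measurableSet_toMeasurable μ A₀),
      inter_eq_left.mpr (subset_toMeasurable μ A₀)] at h2
    exact h0 h2

end Pool.Agent.H681R2
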