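import Pool.Agent.H681R2.MergeDigits

/-!
# Hausdorff measures with gauges and universally null sets
-/

set_option autoImplicit false

namespace Pool.Agent.H681R2

open Set MeasureTheory Measure Cardinal Topology
open scoped ENNReal NNReal

/-- A gauge function: nondecreasing, right-continuous, zero exactly at zero. -/
structure IsGauge (f : ℝ≥0 → ℝ≥0) : Prop where
  mono : Monotone f
  rightCont : ∀ t : ℝ≥0, ContinuousWithinAt f (Set.Ici t) t
  zero : f 0 = 0
  pos : ∀ t : ℝ≥0, 0 < t → 0 < f t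

/-- `H^f_δ(A)`: the infimum of `∑ f (diam U_i)` over countable covers of `A` by sets of diameter
at most `δ`. -/
noncomputable def gaugePre (f : ℝ≥0 → ℝ≥0) (δ : ℝ≥0) (A : Set ℝ) : ℝ≥0∞ :=
  ⨅ (U : ℕ → Set ℝ) (_ : A ⊆ ⋃ i, U i) (_ : ∀ i, Metric.ediam (U i) ≤ δ),
    ∑' i, (f (Metric.ediam (U i)).toNNReal : ℝ≥0∞)

/-- The Hausdorff outer measure `H^f(A) = lim_{δ → 0+} H^f_δ(A) = sup_{δ > 0} H^f_δ(A)`. -/
noncomputable def gaugeMeas (f : ℝ≥0 → ℝ≥0) (A : Set ℝ) : ℝ≥0∞ :=
  ⨆ (δ : ℝ≥0) (_ : 0 < δ), gaugePre f δ A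

variable {f : ℝ≥0 → ℝ≥0}

lemma gaugeMeas_eq (hf : IsGauge f) (A : Set ℝ) :
    gaugeMeas f A = Measure.mkMetric (fun d => (f d.toNNReal : ℝ≥0∞)) A := by
  have hsum : ∀ U : ℕ → Set ℝ, ∑' n, (⨆ _ : (U n).Nonempty, (f (Metric.ediam (U n)).toNNReal : ℝ≥0∞))
      = ∑' i, (f (Metric.ediam (U i)).toNNReal : ℝ≥0∞) := by
    intro U
    refine tsum_congr fun n => ?_
    rcases (U n).eq_empty_or_nonempty with h | h
    · rw [h]
      simp [hf.zero]
    · simp [h]
  rw [mkMetric_apply]
  simp only [hsum]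
  apply le_antisymm
  · refine iSup₂_le fun δ hδ => ?_
    exact le_iSup₂_of_le (δ : ℝ≥0∞) (by exact_mod_cast hδ) le_rfl
  · refine iSup₂_le fun r hr => ?_
    have h1 : 0 < (min r 1).toNNReal := by
      rw [ENNReal.toNNReal_pos_iff]
      exact ⟨lt_min hr one_pos, (min_le_right _ _).trans_lt ENNReal.one_lt_top⟩
    refine le_iSup₂_of_le (min r 1).toNNReal h1 ?_
    refine le_iInf fun U => le_iInf fun hU => le_iInf fun hd => ?_
    refine iInf_le_of_le U (iInf_le_of_le hU (iInf_le_of_le (fun i => (hd i).trans ?_) le_rfl))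
    rw [ENNReal.coe_toNNReal ((min_le_right _ _).trans_lt ENNReal.one_lt_top).ne]
    exact min_le_left _ _

lemma mkMetric_singleton (hf : IsGauge f) (t : ℝ) :
    Measure.mkMetric (fun d => (f d.toNNReal : ℝ≥0∞)) ({t} : Set ℝ) = 0 := by
  rw [← gaugeMeas_eq hf]
  refine le_antisymm (iSup₂_le fun δ _ => ?_) zero_le
  refine iInf_le_of_le (fun _ => {t}) (iInf_le_of_le ?_ (iInf_le_of_le (fun i => ?_) ?_))
  · intro x hx
    exact mem_iUnion.mpr ⟨0, hx⟩
  · simp
  · simp [hf.zero]

/-- A universally null set with non-null projection. -/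
lemma exists_univNull (P : ℕ → Prop) [DecidablePred P] (hP : {i | P i}.Infinite)
    (hP' : {i | ¬ P i}.Infinite) :
    ∃ A : Set ℝ, A ⊆ Ico 0 1 ∧ volume (pReal P '' A) ≠ 0 ∧
      ∀ ν : Measure ℝ, IsFiniteMeasure ν → (∀ t : ℝ, ν {t} = 0) → ν A = 0 := by
  -- a non-null set of minimal cardinality
  obtain ⟨X, ⟨hX01, hX0⟩, hXmin⟩ := WellFounded.has_min
    (InvImage.wf (fun S : Set ℝ => #S) Cardinal.lt_wf)
    {S : Set ℝ | S ⊆ Ico 0 1 ∧ volume S ≠ 0} ⟨Ico 0 1, Subset.rfl, by simp⟩
  have hmin : ∀ S : Set ℝ, S ⊆ Ico 0 1 → volume S ≠ 0 → #X ≤ #S :=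
    fun S h1 h2 => not_lt.mp (hXmin S ⟨h1, h2⟩)
  obtain ⟨r, hr, htype⟩ := Cardinal.exists_ord_eq X
  have hcard : ∀ x : X, #{z : X | r z x} < #X := by
    intro x
    have h := Cardinal.card_typein_lt (r := r) x htype
    rwa [Ordinal.card_typein] at h
  have hinit : ∀ x : X, volume (Subtype.val '' {z : X | r z x}) = 0 := by
    intro x
    by_contra hne
    have h1 : Subtype.val '' {z : X | r z x} ⊆ Ico (0 : ℝ) 1 := by
      rintro _ ⟨z, -, rfl⟩
      exact hX01 z.2
    have h2 := hmin _ h1 hne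
    exact absurd (h2.trans mk_image_le) (not_le.mpr (hcard x))
  choose c hc using fun x : X => exists_code (hinit x)
  refine ⟨range (fun x : X => encReal P (c x) x), ?_, ?_, ?_⟩
  · rintro _ ⟨x, rfl⟩
    exact encReal_mem hP _ _
  · have : pReal P '' range (fun x : X => encReal P (c x) x) = X := by
      ext t
      constructor
      · rintro ⟨_, ⟨x, rfl⟩, rfl⟩
        rw [pReal_encReal hP hP' _ (hX01 x.2)]
        exact x.2
      · intro ht
        exact ⟨_, ⟨⟨t, ht⟩, rfl⟩, pReal_encReal hP hP' _ (hX01 ht)⟩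
    rw [this]
    exact hX0
  · intro ν hνfin hν
    by_contra hA
    set A : Set ℝ := range (fun x : X => encReal P (c x) x) with hAdef
    -- the relation
    let W : Set (ℝ × ℝ) := {p | (decCode P p.1, p.2) ∈ nullPart}
    have hW : MeasurableSet W := by
      have h1 : Measurable (fun p : ℝ × ℝ => (decCode P p.1, p.2)) :=
        (measurable_decCode.comp measurable_fst).prodMk measurable_snd
      exact h1 measurableSet_nullPart
    have h1 : (ν.prod (volume : Measure ℝ)) W = 0 := by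
      rw [measure_prod_null hW]
      exact Filter.Eventually.of_forall fun y => volume_nullPart (decCode P y)
    have h2 : ((volume : Measure ℝ).prod ν) (Prod.swap ⁻¹' W) = 0 := by
      rw [← Measure.prod_swap, Measure.map_apply measurable_swap
        (measurable_swap hW), ← preimage_comp]
      simpa using h1
    have h3 := Measure.measure_ae_null_of_prod_null h2
    -- every point of `X` has a large section
    have h4 : ∀ x : X, ν (Prod.mk (x : ℝ) ⁻¹' (Prod.swap ⁻¹' W)) ≠ 0 := by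
      intro x hx
      apply hA
      have h5 : A ⊆ (Prod.mk (x : ℝ) ⁻¹' (Prod.swap ⁻¹' W)) ∪
          ((fun z : X => encReal P (c z) z) '' {z : X | r z x} ∪ {encReal P (c x) x}) := by
        rintro _ ⟨z, rfl⟩
        rcases trichotomous_of r z x with h | h | h
        · exact Or.inr (Or.inl ⟨z, h, rfl⟩)
        · exact Or.inr (Or.inr (by rw [h]; rfl))
        · left
          change (decCode P (encReal P (c z) z), (x : ℝ)) ∈ nullPart
          rw [decCode_encReal hP]
          exact hc z ⟨x, h, rfl⟩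
      have h6 : ν ((fun z : X => encReal P (c z) z) '' {z : X | r z x}) = 0 :=
        null_of_card_lt hmin ν hν (mk_image_le.trans_lt (hcard x))
      refine measure_mono_null h5 (measure_union_null hx (measure_union_null h6 (hν _)))
    apply hX0
    refine measure_mono_null ?_ h3
    intro x hx
    exact h4 ⟨x, hx⟩

end Pool.Agent.H681R2
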