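import Pool.Agent.H681R2.NonNull

/-!
# Merging binary digits
-/

set_option autoImplicit false

namespace Pool.Agent.H681R2

open Set MeasureTheory Measure Cardinal Topology
open scoped ENNReal

/-- the integer parts of `2 ^ n * 0.b₀b₁…` -/
def intPart (b : ℕ → Fin 2) : ℕ → ℕ
  | 0 => 0
  | n + 1 => 2 * intPart b n + (b n : ℕ)

lemma ofDigits_shift (b : ℕ → Fin 2) :
    2 * Real.ofDigits b = (b 0 : ℕ) + Real.ofDigits (fun i => b (i + 1)) := by
  have h := Real.ofDigits_eq_sum_add_ofDigits b 1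
  simp only [Finset.range_one, Finset.sum_singleton, Real.ofDigitsTerm, zero_add, pow_one] at h
  rw [h]
  push_cast
  ring

lemma ofDigits_mul_pow (b : ℕ → Fin 2) (n : ℕ) :
    Real.ofDigits b * 2 ^ n = intPart b n + Real.ofDigits (fun i => b (i + n)) := by
  induction n with
  | zero => simp [intPart]
  | succ n ih =>
    have h := ofDigits_shift (fun i => b (i + n))
    simp only [zero_add] at h
    have e : (fun i => b (i + 1 + n)) = fun i => b (i + (n + 1)) := by
      funext i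
      congr 1
      omega
    rw [e] at h
    rw [pow_succ, ← mul_assoc, ih, intPart]
    push_cast
    linarith

lemma ofDigits_lt_one (b : ℕ → Fin 2) {k : ℕ} (hk : b k = 0) : Real.ofDigits b < 1 := by
  induction k generalizing b with
  | zero =>
    have h := ofDigits_shift b
    rw [hk] at h
    have h1 := Real.ofDigits_le_one (fun i => b (i + 1))
    simp only [Fin.val_zero, Nat.cast_zero, zero_add] at h
    linarith
  | succ k ih =>
    have h := ofDigits_shift b
    have h1 := ih (fun i => b (i + 1)) hk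
    have h2 : ((b 0 : ℕ) : ℝ) ≤ 1 := by
      have : (b 0 : ℕ) ≤ 1 := by omega
      exact_mod_cast this
    linarith

lemma floor_ofDigits (b : ℕ → Fin 2) (hb : ∀ N, ∃ i ≥ N, b i = 0) (n : ℕ) :
    ⌊Real.ofDigits b * 2 ^ n⌋₊ = intPart b n := by
  rw [ofDigits_mul_pow, Nat.floor_eq_iff (add_nonneg (Nat.cast_nonneg _) (Real.ofDigits_nonneg _))]
  obtain ⟨i, hi, hbi⟩ := hb n
  have h : (fun i => b (i + n)) (i - n) = 0 := by
    simp only []
    rw [Nat.sub_add_cancel hi, hbi]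
  have h1 : Real.ofDigits (fun i => b (i + n)) < 1 := ofDigits_lt_one _ h
  have h2 := Real.ofDigits_nonneg (fun i => b (i + n))
  constructor <;> linarith

lemma digits_ofDigits (b : ℕ → Fin 2) (hb : ∀ N, ∃ i ≥ N, b i = 0) :
    Real.digits (Real.ofDigits b) 2 = b := by
  funext n
  have h := floor_ofDigits b hb (n + 1)
  simp only [Real.digits]
  have h' : ⌊Real.ofDigits b * ((2 : ℕ) : ℝ) ^ (n + 1)⌋₊ = intPart b (n + 1) := by
    exact_mod_cast h
  rw [h', intPart]
  apply Fin.ext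
  rw [Fin.val_ofNat]
  omega

lemma digits_eq_of_floor_eq {y y' : ℝ} {m : ℕ} (h : ⌊y * 2 ^ m⌋₊ = ⌊y' * 2 ^ m⌋₊) {i : ℕ}
    (hi : i < m) : Real.digits y 2 i = Real.digits y' 2 i := by
  have key : ∀ y : ℝ, ⌊y * ((2 : ℕ) : ℝ) ^ (i + 1)⌋₊ = ⌊y * 2 ^ m⌋₊ / 2 ^ (m - (i + 1)) := by
    intro y
    rw [← Nat.floor_div_natCast]
    congr 1
    have : (2 : ℝ) ^ m = 2 ^ (i + 1) * 2 ^ (m - (i + 1)) := by
      rw [← pow_add]
      congr 1
      omega
    rw [this]
    push_cast
    field_simp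
  simp only [Real.digits]
  rw [key, key, h]

variable (P : ℕ → Prop) [DecidablePred P]

/-- put the digits of `z` at the positions satisfying `P` and those of `x` at the others -/
def merge (z x : ℕ → Fin 2) : ℕ → Fin 2 :=
  fun i => if P i then z (Nat.count P i) else x (Nat.count (fun j => ¬ P j) i)

/-- the real number formed by the digits at the positions outside `P` -/
noncomputable def pReal (y : ℝ) : ℝ :=
  Real.ofDigits (fun i => Real.digits y 2 (Nat.nth (fun j => ¬ P j) i))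

variable {P}

lemma merge_nth (hP : {i | P i}.Infinite) (z x : ℕ → Fin 2) (j : ℕ) :
    merge P z x (Nat.nth P j) = z j := by
  have h := Nat.nth_mem_of_infinite hP j
  rw [merge, if_pos h, Nat.count_nth_of_infinite hP]

lemma merge_nth_not (hP : {i | ¬ P i}.Infinite) (z x : ℕ → Fin 2) (j : ℕ) :
    merge P z x (Nat.nth (fun j => ¬ P j) j) = x j := by
  have h := Nat.nth_mem_of_infinite hP j
  rw [merge, if_neg h, Nat.count_nth_of_infinite hP]

lemma pReal_sub_le {y y' : ℝ} {m : ℕ} (h : ⌊y * 2 ^ m⌋₊ = ⌊y' * 2 ^ m⌋₊) :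
    |pReal P y - pReal P y'| ≤ ((2 : ℝ) ^ (Nat.count (fun j => ¬ P j) m))⁻¹ := by
  have := Real.abs_ofDigits_sub_ofDigits_le (b := 2)
    (x := fun i => Real.digits y 2 (Nat.nth (fun j => ¬ P j) i))
    (y := fun i => Real.digits y' 2 (Nat.nth (fun j => ¬ P j) i))
    (n := Nat.count (fun j => ¬ P j) m) ?_
  · exact_mod_cast this
  · intro i hi
    exact digits_eq_of_floor_eq h (Nat.nth_lt_of_lt_count hi)

/-- The basic covering estimate. -/
lemma volume_pReal_image_le {U : Set ℝ} (hU : U ⊆ Ico 0 1) {m : ℕ}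
    (hd : Metric.ediam U ≤ ENNReal.ofReal ((2 : ℝ) ^ m)⁻¹) :
    volume (pReal P '' U) ≤ 2 * ENNReal.ofReal ((2 : ℝ) ^ (Nat.count (fun j => ¬ P j) m))⁻¹ := by
  rcases U.eq_empty_or_nonempty with rfl | hne
  · simp
  obtain ⟨y₀, hy₀, hmin⟩ : ∃ y₀ ∈ U, ∀ y ∈ U, ⌊y₀ * 2 ^ m⌋₊ ≤ ⌊y * 2 ^ m⌋₊ := by
    obtain ⟨J, hJ, hJmin⟩ := WellFounded.has_min (wellFounded_lt (α := ℕ))
      ((fun y : ℝ => ⌊y * 2 ^ m⌋₊) '' U) (hne.image _)
    obtain ⟨y₀, hy₀, rfl⟩ := hJ
    exact ⟨y₀, hy₀, fun y hy => not_lt.mp (hJmin _ ⟨y, hy, rfl⟩)⟩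
  have hfl : ∀ y ∈ U, ⌊y * 2 ^ m⌋₊ = ⌊y₀ * 2 ^ m⌋₊ ∨ ⌊y * 2 ^ m⌋₊ = ⌊y₀ * 2 ^ m⌋₊ + 1 := by
    intro y hy
    have h1 := hmin y hy
    have h2 : ⌊y * 2 ^ m⌋₊ ≤ ⌊y₀ * 2 ^ m⌋₊ + 1 := by
      rw [← Nat.floor_add_one (mul_nonneg (hU hy₀).1 (by positivity))]
      apply Nat.floor_le_floor
      have h3 : edist y y₀ ≤ ENNReal.ofReal ((2 : ℝ) ^ m)⁻¹ :=
        (Metric.edist_le_ediam_of_mem hy hy₀).trans hd
      rw [edist_dist, ENNReal.ofReal_le_ofReal_iff (by positivity), Real.dist_eq] at h3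
      have h4 : y - y₀ ≤ ((2 : ℝ) ^ m)⁻¹ := (le_abs_self _).trans h3
      have h5 : (y - y₀) * 2 ^ m ≤ 1 := by
        calc (y - y₀) * 2 ^ m ≤ ((2 : ℝ) ^ m)⁻¹ * 2 ^ m := by gcongr
          _ = 1 := inv_mul_cancel₀ (by positivity)
      linarith
    omega
  have hpiece : ∀ J : ℕ, volume (pReal P '' {y ∈ U | ⌊y * 2 ^ m⌋₊ = J}) ≤
      ENNReal.ofReal ((2 : ℝ) ^ (Nat.count (fun j => ¬ P j) m))⁻¹ := by
    intro J
    refine (Real.volume_le_diam _).trans ?_
    refine Metric.ediam_le ?_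
    rintro _ ⟨y, hy, rfl⟩ _ ⟨y', hy', rfl⟩
    rw [edist_dist, Real.dist_eq]
    exact ENNReal.ofReal_le_ofReal (pReal_sub_le (hy.2.trans hy'.2.symm))
  have hsub : pReal P '' U ⊆ (pReal P '' {y ∈ U | ⌊y * 2 ^ m⌋₊ = ⌊y₀ * 2 ^ m⌋₊}) ∪
      (pReal P '' {y ∈ U | ⌊y * 2 ^ m⌋₊ = ⌊y₀ * 2 ^ m⌋₊ + 1}) := by
    rintro _ ⟨y, hy, rfl⟩
    rcases hfl y hy with h | h
    · exact Or.inl ⟨y, ⟨hy, h⟩, rfl⟩
    · exact Or.inr ⟨y, ⟨hy, h⟩, rfl⟩
  refine (measure_mono hsub).trans ((measure_union_le _ _).trans ?_)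
  rw [two_mul]
  exact add_le_add (hpiece _) (hpiece _)

variable (P)

/-- the digit sequence of a code, with infinitely many zeros -/
def codeDigits (c : NCode) : ℕ → Fin 2 := fun l =>
  if l % 2 = 0 then 0 else
    if ((Encodable.decode (l / 2) : Option (ℕ × ℚ × ℚ)).elim false c) then 1 else 0

/-- the real number encoding a code `c` and a real `x` -/
noncomputable def encReal (c : NCode) (x : ℝ) : ℝ :=
  Real.ofDigits (merge P (codeDigits c) (Real.digits x 2))

/-- recovering the code -/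
noncomputable def decCode (y : ℝ) : NCode := fun j =>
  decide (Real.digits y 2 (Nat.nth P (2 * Encodable.encode j + 1)) = 1)

variable {P}

lemma merge_zeros (hP : {i | P i}.Infinite) (c : NCode) (x : ℕ → Fin 2) (N : ℕ) :
    ∃ i ≥ N, merge P (codeDigits c) x i = 0 := by
  refine ⟨Nat.nth P (2 * N), ?_, ?_⟩
  · have h := (Nat.nth_strictMono hP).le_apply (x := 2 * N)
    change N ≤ Nat.nth P (2 * N)
    have h' : 2 * N ≤ Nat.nth P (2 * N) := h
    omega
  · rw [merge_nth hP, codeDigits]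
    simp

lemma digits_encReal (hP : {i | P i}.Infinite) (c : NCode) (x : ℝ) :
    Real.digits (encReal P c x) 2 = merge P (codeDigits c) (Real.digits x 2) :=
  digits_ofDigits _ (merge_zeros hP c _)

lemma encReal_mem (hP : {i | P i}.Infinite) (c : NCode) (x : ℝ) : encReal P c x ∈ Ico (0 : ℝ) 1 := by
  obtain ⟨i, -, hi⟩ := merge_zeros hP c (Real.digits x 2) 0
  exact ⟨Real.ofDigits_nonneg _, ofDigits_lt_one _ hi⟩

lemma pReal_encReal (hP : {i | P i}.Infinite) (hP' : {i | ¬ P i}.Infinite) (c : NCode) {x : ℝ}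
    (hx : x ∈ Ico (0 : ℝ) 1) : pReal P (encReal P c x) = x := by
  rw [pReal, digits_encReal hP]
  have : (fun i => merge P (codeDigits c) (Real.digits x 2) (Nat.nth (fun j => ¬ P j) i)) =
      Real.digits x 2 := by
    funext i
    exact merge_nth_not hP' _ _ _
  rw [this]
  exact Real.ofDigits_digits one_lt_two hx

lemma decCode_encReal (hP : {i | P i}.Infinite) (c : NCode) (x : ℝ) :
    decCode P (encReal P c x) = c := by
  funext j
  rw [decCode, digits_encReal hP, merge_nth hP, codeDigits]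
  have h1 : (2 * Encodable.encode j + 1) % 2 ≠ 0 := by omega
  have h2 : (2 * Encodable.encode j + 1) / 2 = Encodable.encode j := by omega
  rw [if_neg h1, h2, Encodable.encodek]
  simp only [Option.elim_some]
  by_cases h : c j = true
  · simp [h]
  · simp [h]

omit [DecidablePred P] in
lemma measurable_decCode : Measurable (decCode P) := by
  refine measurable_pi_lambda _ fun j => ?_
  have h1 : Measurable (fun y : ℝ => Real.digits y 2 (Nat.nth P (2 * Encodable.encode j + 1))) := by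
    have h2 : Measurable (fun y : ℝ => ⌊y * ((2 : ℕ) : ℝ) ^ (Nat.nth P
        (2 * Encodable.encode j + 1) + 1)⌋₊) :=
      Nat.measurable_floor.comp (measurable_id.mul_const _)
    exact (measurable_from_top (f := fun n : ℕ => Fin.ofNat 2 n)).comp h2
  exact (measurable_from_top (f := fun d : Fin 2 => decide (d = 1))).comp h1

end Pool.Agent.H681R2
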