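import Mathlib

/-!
# Small sets are universally null

A set of reals of cardinality less than that of every non-null subset of `[0, 1)` is null for every
finite measure without atoms.
-/

set_option autoImplicit false

namespace Pool.Agent.H681R2

open Set MeasureTheory Measure Cardinal Topology
open scoped ENNReal Pointwise

/-- The image of a finite measure without atoms under its distribution function is at most Lebesgue
measure. -/
lemma map_cdf_le (ν : Measure ℝ) [IsFiniteMeasure ν] (hν : ∀ t : ℝ, ν {t} = 0) :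
    ν.map (fun t => (ν (Iic t)).toReal) ≤ volume := by
  have hmono : Monotone (fun t => (ν (Iic t)).toReal) := by
    intro s t hst
    exact ENNReal.toReal_mono (measure_ne_top ν _) (measure_mono (Iic_subset_Iic.mpr hst))
  rw [← hausdorffMeasure_real]
  refine le_hausdorffMeasure 1 _ 1 one_pos fun s _ => ?_
  rw [ENNReal.rpow_one]
  refine (measure_mono subset_closure).trans ?_
  rw [← Metric.ediam_closure, Measure.map_apply hmono.measurable isClosed_closure.measurableSet]
  have hS : MeasurableSet ((fun t => (ν (Iic t)).toReal) ⁻¹' closure s) :=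
    hmono.measurable isClosed_closure.measurableSet
  rw [hS.measure_eq_iSup_isCompact]
  refine iSup_le fun K => iSup_le fun hKS => iSup_le fun hK => ?_
  rcases K.eq_empty_or_nonempty with rfl | hne
  · simp
  obtain ⟨b, hb, hb'⟩ := hK.exists_isGreatest hne
  obtain ⟨a, ha, ha'⟩ := hK.exists_isLeast hne
  have hab : a ≤ b := hb' ha
  have h1 : K ⊆ {a} ∪ (Iic b \ Iic a) := by
    intro x hx
    rcases (ha' hx).eq_or_lt with h | h
    · left; exact h.symm
    · right; exact ⟨hb' hx, not_le.mpr h⟩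
  refine (measure_mono h1).trans ((measure_union_le _ _).trans ?_)
  rw [hν, zero_add, measure_sdiff (Iic_subset_Iic.mpr hab) nullMeasurableSet_Iic
    (measure_ne_top ν _)]
  have h2 : edist ((ν (Iic b)).toReal) ((ν (Iic a)).toReal) ≤ Metric.ediam (closure s) :=
    Metric.edist_le_ediam_of_mem (hKS hb) (hKS ha)
  refine le_trans ?_ h2
  rw [edist_dist, Real.dist_eq, abs_of_nonneg (sub_nonneg.mpr (hmono hab)),
    ENNReal.ofReal_sub _ ENNReal.toReal_nonneg, ENNReal.ofReal_toReal (measure_ne_top ν _),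
    ENNReal.ofReal_toReal (measure_ne_top ν _)]

/-- If `X` has minimal cardinality among the non-null subsets of `[0, 1)`, then all sets of smaller
cardinality are null for all finite measures without atoms. -/
lemma null_of_card_lt {X : Set ℝ}
    (hmin : ∀ S : Set ℝ, S ⊆ Ico 0 1 → volume S ≠ 0 → #X ≤ #S)
    (ν : Measure ℝ) [IsFiniteMeasure ν] (hν : ∀ t : ℝ, ν {t} = 0) {S : Set ℝ} (hS : #S < #X) :
    ν S = 0 := by
  have hmono : Monotone (fun t => (ν (Iic t)).toReal) := by
    intro s t hst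
    exact ENNReal.toReal_mono (measure_ne_top ν _) (measure_mono (Iic_subset_Iic.mpr hst))
  set F : ℝ → ℝ := fun t => (ν (Iic t)).toReal with hF
  set M : ℝ := (ν univ).toReal + 1 with hM
  have hMpos : 0 < M := by positivity
  -- the image is null
  have h1 : volume (F '' S) = 0 := by
    by_contra hne
    have h2 : volume ((fun x => M⁻¹ * x) '' (F '' S)) ≠ 0 := by
      have e : (fun x => M⁻¹ * x) '' (F '' S) = M⁻¹ • (F '' S) := rfl
      rw [e, addHaar_smul]
      refine mul_ne_zero ?_ hne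
      rw [ENNReal.ofReal_ne_zero_iff]
      positivity
    have h3 : (fun x => M⁻¹ * x) '' (F '' S) ⊆ Ico 0 1 := by
      rintro _ ⟨_, ⟨t, -, rfl⟩, rfl⟩
      have h4 : F t ≤ (ν univ).toReal :=
        ENNReal.toReal_mono (measure_ne_top ν _) (measure_mono (subset_univ _))
      have h5 : 0 ≤ F t := ENNReal.toReal_nonneg
      refine ⟨by positivity, ?_⟩
      rw [inv_mul_lt_iff₀ hMpos]
      linarith
    have h4 := hmin _ h3 h2
    have h5 : #((fun x => M⁻¹ * x) '' (F '' S)) ≤ #S := mk_image_le.trans mk_image_le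
    exact absurd (h4.trans h5) (not_le.mpr hS)
  -- hence `S` is null
  obtain ⟨T, hT1, hT2, hT3⟩ := exists_measurable_superset_of_null h1
  have h2 : ν.map F T = 0 := by
    have := map_cdf_le ν hν T
    rw [hT3] at this
    exact le_antisymm this zero_le
  rw [Measure.map_apply hmono.measurable hT2] at h2
  refine measure_mono_null ?_ h2
  intro x hx
  exact hT1 ⟨x, hx, rfl⟩

/-- codes for null sets -/
abbrev NCode := ℕ × ℚ × ℚ → Bool

/-- the open set number `n` of the code -/
def openPart (n : ℕ) : Set (NCode × ℝ) :=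
  {p | ∃ q : ℚ × ℚ, p.1 (n, q) = true ∧ p.2 ∈ Ioo (q.1 : ℝ) q.2}

/-- The null set with code `c`: a countable intersection of open sets, or empty. -/
def nullPart : Set (NCode × ℝ) :=
  {p | ∀ n : ℕ, p ∈ openPart n ∧ volume (Prod.mk p.1 ⁻¹' openPart n) ≤ (2 : ℝ≥0∞)⁻¹ ^ n}

lemma measurableSet_openPart (n : ℕ) : MeasurableSet (openPart n) := by
  have : openPart n = ⋃ q : ℚ × ℚ, {p : NCode × ℝ | p.1 (n, q) = true} ∩
      {p : NCode × ℝ | p.2 ∈ Ioo (q.1 : ℝ) q.2} := by
    ext p
    simp [openPart]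
  rw [this]
  refine MeasurableSet.iUnion fun q => MeasurableSet.inter ?_ ?_
  · have h : Measurable (fun p : NCode × ℝ => p.1 (n, q)) := by fun_prop
    exact h (measurableSet_singleton true)
  · exact measurable_snd measurableSet_Ioo

lemma measurableSet_nullPart : MeasurableSet nullPart := by
  have : nullPart = ⋂ n : ℕ, (openPart n ∩
      {p : NCode × ℝ | volume (Prod.mk p.1 ⁻¹' openPart n) ≤ (2 : ℝ≥0∞)⁻¹ ^ n}) := by
    ext p
    simp [nullPart]
  rw [this]
  refine MeasurableSet.iInter fun n => (measurableSet_openPart n).inter ?_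
  have h : Measurable fun c : NCode => volume (Prod.mk c ⁻¹' openPart n) :=
    measurable_measure_prodMk_left (measurableSet_openPart n)
  have h' : Measurable fun p : NCode × ℝ => volume (Prod.mk p.1 ⁻¹' openPart n) :=
    h.comp measurable_fst
  exact measurableSet_le h' measurable_const

lemma volume_nullPart (c : NCode) : volume (Prod.mk c ⁻¹' nullPart) = 0 := by
  rcases (Prod.mk c ⁻¹' nullPart).eq_empty_or_nonempty with h | ⟨x, hx⟩
  · rw [h, measure_empty]
  · have h1 : ∀ n : ℕ, volume (Prod.mk c ⁻¹' nullPart) ≤ (2 : ℝ≥0∞)⁻¹ ^ n := by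
      intro n
      refine le_trans (measure_mono ?_) (hx n).2
      intro y hy
      exact (hy n).1
    refine le_antisymm ?_ zero_le
    refine ge_of_tendsto' (ENNReal.tendsto_pow_atTop_nhds_zero_of_lt_one ?_) h1
    exact ENNReal.inv_lt_one.mpr ENNReal.one_lt_two

lemma exists_code {S : Set ℝ} (hS : volume S = 0) : ∃ c : NCode, S ⊆ Prod.mk c ⁻¹' nullPart := by
  classical
  have h1 : ∀ n : ℕ, ∃ U : Set ℝ, S ⊆ U ∧ IsOpen U ∧ volume U ≤ (2 : ℝ≥0∞)⁻¹ ^ n := by
    intro n
    obtain ⟨U, h1, h2, h3⟩ := S.exists_isOpen_lt_of_lt (μ := volume) ((2 : ℝ≥0∞)⁻¹ ^ n) (by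
      rw [hS]
      exact ENNReal.pow_pos (ENNReal.inv_pos.mpr ENNReal.ofNat_ne_top) n)
    exact ⟨U, h1, h2, h3.le⟩
  choose U hSU hU hUv using h1
  refine ⟨fun j => decide (Ioo (j.2.1 : ℝ) j.2.2 ⊆ U j.1), ?_⟩
  have h2 : ∀ n, Prod.mk (fun j : ℕ × ℚ × ℚ => decide (Ioo (j.2.1 : ℝ) j.2.2 ⊆ U j.1)) ⁻¹'
      openPart n = U n := by
    intro n
    ext x
    simp only [openPart, mem_preimage, mem_ofPred_eq, decide_eq_true_eq]
    constructor
    · rintro ⟨q, h3, h4⟩
      exact h3 h4
    · intro hx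
      have hb := Real.isTopologicalBasis_Ioo_rat
      obtain ⟨V, hV, hxV, hVU⟩ := hb.exists_subset_of_mem_open hx (hU n)
      simp only [mem_iUnion, mem_singleton_iff] at hV
      obtain ⟨p, q, -, rfl⟩ := hV
      exact ⟨(p, q), hVU, hxV⟩
  intro x hx n
  refine ⟨?_, ?_⟩
  · have : x ∈ Prod.mk (fun j : ℕ × ℚ × ℚ => decide (Ioo (j.2.1 : ℝ) j.2.2 ⊆ U j.1)) ⁻¹'
      openPart n := by
      rw [h2]
      exact hSU n hx
    exact this
  · change volume (Prod.mk (fun j : ℕ × ℚ × ℚ => decide (Ioo (j.2.1 : ℝ) j.2.2 ⊆ U j.1)) ⁻¹'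
      openPart n) ≤ _
    rw [h2]
    exact hUv n

end Pool.Agent.H681R2
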