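import Mathlib

/-!
# Refining a Polish topology by an upper semicontinuous function
-/

set_option autoImplicit false

namespace Pool.Agent.H681R2

open Set Function Filter Topology TopologicalSpace

/-- A `G_δ` subset of a Polish space is Polish. -/
lemma polishSpace_of_isGδ {Y : Type*} [TopologicalSpace Y] [PolishSpace Y] {s : Set Y}
    (hs : IsGδ s) : PolishSpace s := by
  obtain ⟨U, hU, rfl⟩ := isGδ_iff_eq_iInter_nat.mp hs
  have : ∀ n, PolishSpace (U n) := fun n => (hU n).polishSpace
  let f : (⋂ n, U n : Set Y) → (∀ n, U n) := fun y n => ⟨y.1, mem_iInter.mp y.2 n⟩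
  have hf : Continuous f := by
    refine continuous_pi fun n => ?_
    exact Continuous.subtype_mk continuous_subtype_val _
  have hind : IsInducing f := by
    refine ⟨le_antisymm hf.le_induced ?_⟩
    have h1 : (Subtype.val : (⋂ n, U n : Set Y) → Y) =
        (fun u : (∀ n, U n) => (u 0 : Y)) ∘ f := rfl
    change _ ≤ TopologicalSpace.induced Subtype.val _
    rw [h1, ← induced_compose]
    apply induced_mono
    have h2 : Continuous (fun u : (∀ n, U n) => (u 0 : Y)) :=
      continuous_subtype_val.comp (continuous_apply 0)
    exact h2.le_induced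
  have hinj : Injective f := by
    intro x y hxy
    apply Subtype.ext
    have := congrFun hxy 0
    exact congrArg (fun u : U 0 => (u : Y)) this
  have hrange : range f = {u | ∀ n m, (u n : Y) = u m} := by
    ext u
    constructor
    · rintro ⟨y, rfl⟩ n m
      rfl
    · intro hu
      refine ⟨⟨u 0, mem_iInter.mpr fun n => ?_⟩, ?_⟩
      · rw [hu 0 n]
        exact (u n).2
      · funext n
        exact Subtype.ext (hu 0 n)
  have hclosed : IsClosed (range f) := by
    rw [hrange]
    simp only [Set.ofPred_forall]
    refine isClosed_iInter fun n => isClosed_iInter fun m => ?_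
    exact isClosed_eq (continuous_subtype_val.comp (continuous_apply n))
      (continuous_subtype_val.comp (continuous_apply m))
  exact IsClosedEmbedding.polishSpace ⟨⟨hind, hinj⟩, hclosed⟩

/-- Refining a Polish topology by an upper semicontinuous real function gives a Polish topology. -/
lemma polishSpace_inf_induced {X : Type*} (t : TopologicalSpace X) (ht : @PolishSpace X t)
    (h : X → ℝ) (husc : ∀ r : ℝ, @IsOpen X t {x | h x < r}) :
    @PolishSpace X (t ⊓ TopologicalSpace.induced h inferInstance) := by
  -- the graph map into `X × ℝ`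
  let _ := t
  have _ := ht
  let Φ : X → X × ℝ := fun x => (x, h x)
  have hG : IsGδ (range Φ) := by
    have h1 : range Φ = (⋂ n : ℕ, {p : X × ℝ | h p.1 < p.2 + 1 / ((n : ℝ) + 1)}) ∩
        {p : X × ℝ | p.2 ≤ h p.1} := by
      ext ⟨x, r⟩
      constructor
      · rintro ⟨y, hy⟩
        obtain ⟨rfl, rfl⟩ := Prod.mk.inj hy
        refine ⟨mem_iInter.mpr fun n => ?_, le_refl (h y)⟩
        change h y < h y + 1 / ((n : ℝ) + 1)
        have : (0 : ℝ) < 1 / ((n : ℝ) + 1) := Nat.one_div_pos_of_nat
        linarith
      · rintro ⟨h1, h2⟩
        rw [mem_iInter] at h1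
        refine ⟨x, Prod.ext rfl (le_antisymm ?_ h2)⟩
        change h x ≤ r
        refine le_of_forall_pos_le_add fun ε hε => ?_
        obtain ⟨n, hn⟩ := exists_nat_one_div_lt hε
        have h3 : h x < r + 1 / ((n : ℝ) + 1) := h1 n
        linarith
    rw [h1]
    apply IsGδ.inter
    · apply IsGδ.iInter_of_isOpen
      intro n
      have : {p : X × ℝ | h p.1 < p.2 + 1 / ((n : ℝ) + 1)} =
          ⋃ r : ℝ, {x | h x < r} ×ˢ {s : ℝ | r < s + 1 / ((n : ℝ) + 1)} := by
        ext ⟨x, s⟩
        simp only [mem_ofPred_eq, mem_iUnion, mem_prod]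
        constructor
        · intro hx
          obtain ⟨r, h1, h2⟩ := exists_between hx
          exact ⟨r, h1, h2⟩
        · rintro ⟨r, h1, h2⟩
          exact h1.trans h2
      rw [this]
      refine isOpen_iUnion fun r => (husc r).prod ?_
      exact isOpen_lt continuous_const (by fun_prop)
    · -- closed set in a metrizable space is `G_δ`
      have hcl : IsClosed {p : X × ℝ | p.2 ≤ h p.1} := by
        rw [← isOpen_compl_iff]
        have : {p : X × ℝ | p.2 ≤ h p.1}ᶜ = ⋃ r : ℝ, {x | h x < r} ×ˢ Set.Ioi r := by
          ext ⟨x, s⟩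
          simp only [mem_compl_iff, mem_ofPred_eq, not_le, mem_iUnion, mem_prod, mem_Ioi]
          constructor
          · intro hx
            obtain ⟨r, h1, h2⟩ := exists_between hx
            exact ⟨r, h1, h2⟩
          · rintro ⟨r, h1, h2⟩
            exact h1.trans h2
        rw [this]
        exact isOpen_iUnion fun r => (husc r).prod isOpen_Ioi
      let _ := TopologicalSpace.upgradeIsCompletelyMetrizable X
      exact hcl.isGδ
  have hP : PolishSpace (range Φ) := polishSpace_of_isGδ hG
  let e : X ≃ range Φ := Equiv.ofInjective Φ fun x y hxy => (Prod.mk.inj hxy).1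
  have h2 := e.polishSpace_induced
  have h3 : TopologicalSpace.induced e instTopologicalSpaceSubtype =
      t ⊓ TopologicalSpace.induced h inferInstance := by
    change TopologicalSpace.induced e (TopologicalSpace.induced Subtype.val _) = _
    rw [induced_compose]
    have : (Subtype.val ∘ e) = Φ := rfl
    rw [this]
    change TopologicalSpace.induced Φ (TopologicalSpace.induced Prod.fst _ ⊓
      TopologicalSpace.induced Prod.snd _) = _
    rw [induced_inf, induced_compose, induced_compose]
    congr 1
    exact induced_id
  rw [h3] at h2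
  exact h2

end Pool.Agent.H681R2
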