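import Mathlib

/-!
# Birkhoff–Kakutani: a right invariant compatible pseudometric
-/

set_option autoImplicit false

namespace Pool.Agent.H681R2

open Set Function Metric List Filter Topology
open scoped NNReal Uniformity

lemma exists_nhds_chain (G : Type*) [TopologicalSpace G] [Group G] [IsTopologicalGroup G]
    [FirstCountableTopology G] :
    ∃ V : ℕ → Set G, (𝓝 (1 : G)).HasBasis (fun _ => True) V ∧ Antitone V ∧
      (∀ n, ∀ x ∈ V n, x⁻¹ ∈ V n) ∧ (∀ n, (1 : G) ∈ V n) ∧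
      ∀ n, ∀ x ∈ V (n + 1), ∀ y ∈ V (n + 1), ∀ z ∈ V (n + 1), x * y * z ∈ V n := by
  obtain ⟨B, hB⟩ := (𝓝 (1 : G)).exists_antitone_basis
  -- shrink a neighborhood to one whose cube (with inverses) lies in it
  have hshrink : ∀ U ∈ 𝓝 (1 : G), ∃ W ∈ 𝓝 (1 : G), (∀ x ∈ W, x⁻¹ ∈ W) ∧
      (∀ x ∈ W, ∀ y ∈ W, ∀ z ∈ W, x * y * z ∈ U) := by
    intro U hU
    have h1 : Tendsto (fun p : G × G × G => p.1 * p.2.1 * p.2.2) (𝓝 (1, 1, 1)) (𝓝 1) := by
      have : Continuous (fun p : G × G × G => p.1 * p.2.1 * p.2.2) := by fun_prop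
      simpa using this.tendsto (1, 1, 1)
    have h2 := h1 hU
    rw [nhds_prod_eq, nhds_prod_eq] at h2
    obtain ⟨A, hA, B', hB', hAB⟩ := Filter.mem_prod_iff.mp (Filter.mem_map.mp h2)
    obtain ⟨A2, hA2, A3, hA3, hA23⟩ := Filter.mem_prod_iff.mp hB'
    let W0 := A ∩ (A2 ∩ A3)
    have hW0 : W0 ∈ 𝓝 (1 : G) := inter_mem hA (inter_mem hA2 hA3)
    refine ⟨W0 ∩ W0⁻¹, inter_mem hW0 (inv_mem_nhds_one G hW0), ?_, ?_⟩
    · rintro x ⟨hx, hx'⟩
      exact ⟨hx', by simpa using hx⟩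
    · intro x hx y hy z hz
      exact hAB (a := (x, y, z)) ⟨hx.1.1, hA23 ⟨hy.1.2.1, hz.1.2.2⟩⟩
  choose! W hW hWinv hWmul using hshrink
  let S : ℕ → {U : Set G // U ∈ 𝓝 (1 : G)} := fun n =>
    Nat.rec ⟨W Set.univ, hW _ univ_mem⟩
      (fun n U => ⟨W (U.1 ∩ B n), hW _ (inter_mem U.2 (hB.mem n))⟩) n
  have hS : ∀ n, (S (n + 1)).1 = W ((S n).1 ∩ B n) := fun n => rfl
  have hone : ∀ n, (1 : G) ∈ (S n).1 := fun n => mem_of_mem_nhds (S n).2
  have hsub : ∀ n, (S (n + 1)).1 ⊆ (S n).1 ∩ B n := by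
    intro n x hx
    have := hWmul _ (inter_mem (S n).2 (hB.mem n)) x hx 1 (hone (n + 1)) 1 (hone (n + 1))
    simpa using this
  refine ⟨fun n => (S n).1, ⟨fun t => ?_⟩, ?_, ?_, hone, ?_⟩
  · constructor
    · intro ht
      obtain ⟨n, hn⟩ := hB.mem_iff.mp ht
      exact ⟨n + 1, trivial, (hsub n).trans (inter_subset_right.trans hn)⟩
    · rintro ⟨n, -, hn⟩
      exact mem_of_superset (S n).2 hn
  · exact antitone_nat_of_succ_le fun n => (hsub n).trans inter_subset_left
  · intro n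
    cases n with
    | zero => exact hWinv _ univ_mem
    | succ n => exact hWinv _ (inter_mem (S n).2 (hB.mem n))
  · intro n x hx y hy z hz
    exact (hWmul _ (inter_mem (S n).2 (hB.mem n)) x hx y hy z hz).1

/-- Birkhoff–Kakutani. -/
theorem exists_rightInv_dist (G : Type*) [tG : TopologicalSpace G] [Group G]
    [IsTopologicalGroup G] [FirstCountableTopology G] :
    ∃ I : PseudoMetricSpace G, I.toUniformSpace.toTopologicalSpace = tG ∧
      ∀ x y a : G, I.dist (x * a) (y * a) = I.dist x y := by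
  classical
  obtain ⟨V, hB, hanti, hinv, hone, hmul⟩ := exists_nhds_chain G
  set d : G → G → ℝ≥0 := fun x y => if h : ∃ n, x * y⁻¹ ∉ V n then (1 / 2) ^ Nat.find h else 0
    with hd
  have hd_self : ∀ x, d x x = 0 := by
    intro x
    simp only [d]
    rw [dif_neg]
    rintro ⟨n, hn⟩
    apply hn
    rw [mul_inv_cancel]
    exact hone n
  have hVcomm : ∀ x y n, x * y⁻¹ ∈ V n ↔ y * x⁻¹ ∈ V n := by
    intro x y n
    constructor
    · intro h
      have := hinv n _ h
      simpa using this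
    · intro h
      have := hinv n _ h
      simpa using this
  have hd_symm : ∀ x y, d x y = d y x := by
    intro x y
    simp only [d, hVcomm x y]
  have hd_inv : ∀ x y a, d (x * a) (y * a) = d x y := by
    intro x y a
    have : x * a * (y * a)⁻¹ = x * y⁻¹ := by group
    simp only [d, this]
  have hr : (1 / 2 : ℝ≥0) ∈ Ioo (0 : ℝ≥0) 1 := ⟨half_pos one_pos, NNReal.half_lt_self one_ne_zero⟩
  let I := PseudoMetricSpace.ofPreNNDist d hd_self hd_symm
  have hdist_le : ∀ x y, I.dist x y ≤ d x y := PseudoMetricSpace.dist_ofPreNNDist_le _ _ _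
  have hle_d : ∀ {x y : G} {n : ℕ}, (1 / 2) ^ n ≤ d x y ↔ x * y⁻¹ ∉ V n := by
    intro x y n
    dsimp only [d]
    split_ifs with h
    · rw [(pow_right_strictAnti₀ hr.1 hr.2).le_iff_ge, Nat.find_le_iff]
      exact ⟨fun ⟨m, hmn, hm⟩ hn => hm (hanti hmn hn), fun h => ⟨n, le_rfl, h⟩⟩
    · push Not at h
      simp only [h, not_true, (pow_pos hr.1 _).not_ge]
  have hd_le : ∀ x y, ↑(d x y) ≤ 2 * I.dist x y := by
    refine PseudoMetricSpace.le_two_mul_dist_ofPreNNDist _ _ _ fun x₁ x₂ x₃ x₄ => ?_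
    by_cases H : ∃ n, x₁ * x₄⁻¹ ∉ V n
    · refine (dif_pos H).trans_le ?_
      rw [← div_le_iff₀' zero_lt_two, ← mul_one_div (_ ^ _), ← pow_succ]
      simp only [le_max_iff, hle_d, ← not_and_or]
      rintro ⟨h₁₂, h₂₃, h₃₄⟩
      refine Nat.find_spec H ?_
      have := hmul _ _ h₁₂ _ h₂₃ _ h₃₄
      have e : x₁ * x₂⁻¹ * (x₂ * x₃⁻¹) * (x₃ * x₄⁻¹) = x₁ * x₄⁻¹ := by group
      rwa [e] at this
    · exact (dif_neg H).trans_le zero_le
  rw [mem_Ioo, ← NNReal.coe_lt_coe, ← NNReal.coe_lt_coe] at hr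
  refine ⟨I, ?_, ?_⟩
  · refine TopologicalSpace.ext_nhds fun x => ?_
    have h1 : (@nhds G I.toUniformSpace.toTopologicalSpace x).HasBasis (fun _ : ℕ => True)
        (fun n => @Metric.ball G I x ((1 / 2 : ℝ) ^ n)) := by
      have := @Metric.nhds_basis_ball_pow G I x (1 / 2) hr.1 hr.2
      exact this
    have h2 : (@nhds G tG x).HasBasis (fun _ : ℕ => True) (fun n => {y | y * x⁻¹ ∈ V n}) := by
      have := hB.comap (fun y : G => y * x⁻¹)
      have e : Filter.comap (fun y : G => y * x⁻¹) (𝓝 1) = 𝓝 x := by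
        have := (Homeomorph.mulRight x⁻¹).nhds_eq_comap x
        simpa using this.symm
      rw [e] at this
      exact this
    refine h1.ext h2 ?_ ?_
    · intro n _
      refine ⟨n, trivial, fun y hy => ?_⟩
      have h3 : ¬ (1 / 2) ^ n ≤ d y x := fun h => hle_d.mp h hy
      have h4 : (d y x : ℝ) < (1 / 2) ^ n := by
        rw [not_le, ← NNReal.coe_lt_coe] at h3
        simpa using h3
      exact (hdist_le y x).trans_lt h4
    · intro n _
      refine ⟨n + 1, trivial, fun y hy => ?_⟩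
      by_contra hn
      have h3 : (1 / 2) ^ n ≤ d y x := hle_d.mpr hn
      have h4 : ((1 / 2 : ℝ)) ^ n ≤ (d y x : ℝ) := by
        rw [← NNReal.coe_le_coe] at h3
        simpa using h3
      have h5 := hd_le y x
      have h6 : I.dist y x < (1 / 2 : ℝ) ^ (n + 1) := hy
      rw [pow_succ] at h6
      linarith
  · intro x y a
    have e : ∀ (l : List G) (x y : G),
        (((x * a) :: l.map (· * a)).zipWith d (l.map (· * a) ++ [y * a])).sum =
        ((x :: l).zipWith d (l ++ [y])).sum := by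
      intro l x y
      have h1 : ((x * a) :: l.map (· * a)) = (x :: l).map (· * a) := by simp
      have h2 : (l.map (· * a) ++ [y * a]) = (l ++ [y]).map (· * a) := by simp
      rw [h1, h2, List.zipWith_map]
      simp only [hd_inv]
    change ((⨅ l : List G, (((x * a) :: l).zipWith d (l ++ [y * a])).sum : ℝ≥0) : ℝ) =
      ((⨅ l : List G, ((x :: l).zipWith d (l ++ [y])).sum : ℝ≥0) : ℝ)
    congr 1
    refine (Equiv.iInf_congr (Equiv.ofBijective (fun l : List G => l.map (· * a)) ?_) ?_).symm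
    · exact ⟨List.map_injective_iff.mpr (mul_left_injective a),
        List.map_surjective_iff.mpr (mul_right_surjective a)⟩
    · intro l
      exact e l x y

end Pool.Agent.H681R2
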