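import Mathlib

/-!
# The additive Borel classes, in the impredicative form of the frozen statement
-/

set_option autoImplicit false

namespace Pool.Agent.H681R2

open Set Function Filter Topology TopologicalSpace

/-- The additive Borel class `Σ⁰_α` of the topology `τ`. -/
def Sig {X : Type} (τ : TopologicalSpace X) (α : Ordinal.{0}) (P : Set X) : Prop :=
  ∀ S : Ordinal.{0} → Set (Set X),
    (∀ γ : Ordinal.{0}, 1 ≤ γ → ∀ U : Set X, @IsOpen X τ U → U ∈ S γ) →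
    (∀ γ : Ordinal.{0}, ∀ f : ℕ → Set X,
      (∀ n : ℕ, ∃ β : Ordinal.{0}, 1 ≤ β ∧ β < γ ∧ (f n)ᶜ ∈ S β) →
        (⋃ n, f n) ∈ S γ) →
    P ∈ S α

variable {X : Type} {τ : TopologicalSpace X}

lemma Sig.of_isOpen {γ : Ordinal.{0}} (h : 1 ≤ γ) {U : Set X} (hU : @IsOpen X τ U) :
    Sig τ γ U := fun _ h1 _ => h1 γ h U hU

lemma Sig.of_iUnion_compl {γ : Ordinal.{0}} {f : ℕ → Set X}
    (h : ∀ n : ℕ, ∃ β : Ordinal.{0}, 1 ≤ β ∧ β < γ ∧ Sig τ β (f n)ᶜ) :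
    Sig τ γ (⋃ n, f n) := by
  intro S h1 h2
  apply h2
  intro n
  obtain ⟨β, hβ1, hβ2, hβ⟩ := h n
  exact ⟨β, hβ1, hβ2, hβ S h1 h2⟩

lemma Sig.cases {γ : Ordinal.{0}} {P : Set X} (h : Sig τ γ P) :
    (1 ≤ γ ∧ @IsOpen X τ P) ∨ ∃ f : ℕ → Set X,
      (∀ n : ℕ, ∃ β : Ordinal.{0}, 1 ≤ β ∧ β < γ ∧ Sig τ β (f n)ᶜ) ∧ P = ⋃ n, f n := by
  have := h (fun γ => {P | Sig τ γ P ∧ ((1 ≤ γ ∧ @IsOpen X τ P) ∨ ∃ f : ℕ → Set X,
      (∀ n : ℕ, ∃ β : Ordinal.{0}, 1 ≤ β ∧ β < γ ∧ Sig τ β (f n)ᶜ) ∧ P = ⋃ n, f n)}) ?_ ?_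
  · exact this.2
  · intro γ hγ U hU
    exact ⟨Sig.of_isOpen hγ hU, Or.inl ⟨hγ, hU⟩⟩
  · intro γ f hf
    have hf' : ∀ n : ℕ, ∃ β : Ordinal.{0}, 1 ≤ β ∧ β < γ ∧ Sig τ β (f n)ᶜ := by
      intro n
      obtain ⟨β, hβ1, hβ2, hβ⟩ := hf n
      exact ⟨β, hβ1, hβ2, hβ.1⟩
    exact ⟨Sig.of_iUnion_compl hf', Or.inr ⟨f, hf', rfl⟩⟩

lemma Sig.one_le {γ : Ordinal.{0}} {P : Set X} (h : Sig τ γ P) : 1 ≤ γ := by
  rcases h.cases with h | ⟨f, hf, -⟩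
  · exact h.1
  · obtain ⟨β, h1, h2, -⟩ := hf 0
    exact h1.trans h2.le

lemma Sig.mono {β γ : Ordinal.{0}} {P : Set X} (h : Sig τ β P) (hβγ : β ≤ γ) : Sig τ γ P := by
  rcases h.cases with h | ⟨f, hf, rfl⟩
  · exact Sig.of_isOpen (h.1.trans hβγ) h.2
  · apply Sig.of_iUnion_compl
    intro n
    obtain ⟨β', h1, h2, h3⟩ := hf n
    exact ⟨β', h1, h2.trans_le hβγ, h3⟩

lemma Sig.isOpen_of_one {P : Set X} (h : Sig τ 1 P) : @IsOpen X τ P := by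
  rcases h.cases with h | ⟨f, hf, -⟩
  · exact h.2
  · obtain ⟨β, h1, h2, -⟩ := hf 0
    exact absurd h1 (not_le.mpr h2)

lemma Sig.canonical (hτ : @PolishSpace X τ) {γ : Ordinal.{0}} (hγ : 1 < γ) {P : Set X}
    (h : Sig τ γ P) : ∃ f : ℕ → Set X,
      (∀ n : ℕ, ∃ β : Ordinal.{0}, 1 ≤ β ∧ β < γ ∧ Sig τ β (f n)ᶜ) ∧ P = ⋃ n, f n := by
  rcases h.cases with h | h
  · letI := τ
    haveI := hτ
    letI := TopologicalSpace.upgradeIsCompletelyMetrizable X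
    obtain ⟨F, hF, -, hU, -⟩ := IsOpen.exists_iUnion_isClosed h.2
    refine ⟨F, fun n => ⟨1, le_rfl, hγ, Sig.of_isOpen le_rfl (hF n).isOpen_compl⟩, hU.symm⟩
  · exact h

lemma Sig.iUnion (hτ : @PolishSpace X τ) {γ : Ordinal.{0}} {P : ℕ → Set X}
    (h : ∀ k, Sig τ γ (P k)) : Sig τ γ (⋃ k, P k) := by
  rcases (h 0).one_le.eq_or_lt with rfl | hγ
  · letI := τ
    exact Sig.of_isOpen le_rfl (isOpen_iUnion fun k => (h k).isOpen_of_one)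
  · choose f hf hP using fun k => (h k).canonical hτ hγ
    have : (⋃ k, P k) = ⋃ n : ℕ, f n.unpair.1 n.unpair.2 := by
      rw [iUnion_congr hP]
      ext x
      simp only [mem_iUnion]
      constructor
      · rintro ⟨k, n, hx⟩
        exact ⟨Nat.pair k n, by simpa using hx⟩
      · rintro ⟨n, hx⟩
        exact ⟨_, _, hx⟩
    rw [this]
    exact Sig.of_iUnion_compl fun n => hf _ _

lemma Sig.empty {γ : Ordinal.{0}} (h : 1 ≤ γ) : Sig τ γ ∅ :=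
  Sig.of_isOpen h (@isOpen_empty X τ)

lemma Sig.univ {γ : Ordinal.{0}} (h : 1 ≤ γ) : Sig τ γ Set.univ :=
  Sig.of_isOpen h (@isOpen_univ X τ)

lemma Sig.iUnion' (hτ : @PolishSpace X τ) {γ : Ordinal.{0}} (hγ : 1 ≤ γ) {ι : Type*} [Countable ι]
    {P : ι → Set X} (h : ∀ k, Sig τ γ (P k)) : Sig τ γ (⋃ k, P k) := by
  rcases isEmpty_or_nonempty ι with hι | hι
  · simpa using Sig.empty hγ
  · obtain ⟨e, he⟩ := exists_surjective_nat ι
    have : (⋃ k, P k) = ⋃ n : ℕ, P (e n) := (he.iUnion_comp P).symm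
    rw [this]
    exact Sig.iUnion hτ fun n => h _

lemma Sig.sUnion (hτ : @PolishSpace X τ) {γ : Ordinal.{0}} (hγ : 1 ≤ γ) {𝒞 : Set (Set X)}
    (h𝒞 : 𝒞.Countable) (h : ∀ U ∈ 𝒞, Sig τ γ U) : Sig τ γ (⋃₀ 𝒞) := by
  rw [sUnion_eq_iUnion]
  haveI := h𝒞.to_subtype
  exact Sig.iUnion' hτ hγ fun k => h _ k.2

lemma Sig.union (hτ : @PolishSpace X τ) {γ : Ordinal.{0}} {P Q : Set X} (hP : Sig τ γ P)
    (hQ : Sig τ γ Q) : Sig τ γ (P ∪ Q) := by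
  have : P ∪ Q = ⋃ b : Bool, (if b then P else Q) := by
    ext x
    simp [or_comm]
  rw [this]
  apply Sig.iUnion' hτ hP.one_le
  intro b
  cases b
  · simpa using hQ
  · simpa using hP

lemma Sig.inter (hτ : @PolishSpace X τ) {γ : Ordinal.{0}} {P Q : Set X} (hP : Sig τ γ P)
    (hQ : Sig τ γ Q) : Sig τ γ (P ∩ Q) := by
  rcases hP.one_le.eq_or_lt with rfl | hγ
  · exact Sig.of_isOpen le_rfl (@IsOpen.inter X τ _ _ hP.isOpen_of_one hQ.isOpen_of_one)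
  · obtain ⟨f, hf, rfl⟩ := hP.canonical hτ hγ
    obtain ⟨g, hg, rfl⟩ := hQ.canonical hτ hγ
    have : (⋃ n, f n) ∩ (⋃ n, g n) = ⋃ n : ℕ, f n.unpair.1 ∩ g n.unpair.2 := by
      ext x
      simp only [mem_inter_iff, mem_iUnion]
      constructor
      · rintro ⟨⟨i, hi⟩, j, hj⟩
        exact ⟨Nat.pair i j, by simpa using ⟨hi, hj⟩⟩
      · rintro ⟨n, h1, h2⟩
        exact ⟨⟨_, h1⟩, _, h2⟩
    rw [this]
    apply Sig.of_iUnion_compl
    intro n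
    obtain ⟨β, h1, h2, h3⟩ := hf n.unpair.1
    obtain ⟨β', h1', h2', h3'⟩ := hg n.unpair.2
    refine ⟨max β β', h1.trans (le_max_left _ _), max_lt h2 h2', ?_⟩
    rw [compl_inter]
    exact (h3.mono (le_max_left _ _)).union hτ (h3'.mono (le_max_right _ _))

lemma Sig.sInter_finite (hτ : @PolishSpace X τ) {γ : Ordinal.{0}} (hγ : 1 ≤ γ) {𝒞 : Set (Set X)}
    (h𝒞 : 𝒞.Finite) (h : ∀ U ∈ 𝒞, Sig τ γ U) : Sig τ γ (⋂₀ 𝒞) := by
  induction 𝒞, h𝒞 using Set.Finite.induction_on with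
  | empty => simpa using Sig.univ hγ
  | insert _ _ ih =>
    rw [sInter_insert]
    exact (h _ (mem_insert _ _)).inter hτ (ih fun U hU => h U (mem_insert_of_mem _ hU))

/-- If a second countable topology is generated by `Σ⁰_γ` sets, then all its open sets are
`Σ⁰_γ`. -/
lemma Sig.of_generateFrom (hτ : @PolishSpace X τ) {γ : Ordinal.{0}} (hγ : 1 ≤ γ)
    (t : TopologicalSpace X) (ht : @SecondCountableTopology X t) {𝒞 : Set (Set X)}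
    (h𝒞 : t = generateFrom 𝒞) (h : ∀ U ∈ 𝒞, Sig τ γ U) {U : Set X} (hU : @IsOpen X t U) :
    Sig τ γ U := by
  letI := t
  have hb := isTopologicalBasis_of_subbasis h𝒞
  obtain ⟨S, hS, rfl⟩ := hb.open_eq_sUnion hU
  obtain ⟨T, hT, hTS, hTU⟩ := isOpen_sUnion_countable S (fun s hs => hb.isOpen (hS hs))
  rw [← hTU]
  apply Sig.sUnion hτ hγ hT
  intro V hV
  obtain ⟨F, ⟨hF1, hF2⟩, rfl⟩ := hS (hTS hV)
  exact Sig.sInter_finite hτ hγ hF1 fun U hU => h U (hF2 hU)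

lemma Sig.measurable {γ : Ordinal.{0}} {P : Set X} (h : Sig τ γ P) :
    @MeasurableSet X (@borel X τ) P := by
  refine h (fun _ => {P | @MeasurableSet X (@borel X τ) P}) ?_ ?_
  · intro γ _ U hU
    exact MeasurableSpace.measurableSet_generateFrom hU
  · intro γ f hf
    refine @MeasurableSet.iUnion X ℕ (@borel X τ) _ _ fun n => ?_
    obtain ⟨β, -, -, h⟩ := hf n
    exact (@MeasurableSet.compl_iff X _ (@borel X τ)).mp h

end Pool.Agent.H681R2
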