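import Pool.Agent.H681R2.VaughtStep

/-!
# The inductive step: refining an admissible topology by distance functions
-/

set_option autoImplicit false

namespace Pool.Agent.H681R2

open Set Function Filter Topology TopologicalSpace Metric

variable {G X : Type}

/-- continuity of the action passes to countable joins of topologies -/
lemma actCont_iInf [tG : TopologicalSpace G] {ι : Type} {T : ι → TopologicalSpace X}
    {a : G × X → X}
    (h : ∀ i, @Continuous (G × X) X
      (TopologicalSpace.induced Prod.fst tG ⊓ TopologicalSpace.induced Prod.snd (T i)) (T i) a) :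
    @Continuous (G × X) X
      (TopologicalSpace.induced Prod.fst tG ⊓ TopologicalSpace.induced Prod.snd (⨅ i, T i))
      (⨅ i, T i) a := by
  refine continuous_iInf_rng.mpr fun i => ?_
  refine continuous_le_dom ?_ (h i)
  exact inf_le_inf_left _ (induced_mono (iInf_le _ i))

/-- The joint continuity of `(k, x) ↦ HB (g * k) x`. -/
lemma continuous_HB [PseudoMetricSpace G] [Group G] [IsTopologicalGroup G]
    [SeparableSpace G] (t : TopologicalSpace X) {a : G × X → X} {P : Set X}
    (h : ∀ m : ℕ, @Continuous X ℝ t _ (fun x => HB a P (denseSeq G m) x)) (g : G) :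
    @Continuous (G × X) ℝ
      (TopologicalSpace.induced Prod.fst inferInstance ⊓ TopologicalSpace.induced Prod.snd t) _
      (fun p => HB a P (g * p.1) p.2) := by
  let _ := t
  have h1 : Continuous (fun p : G × X => HB a P p.1 p.2) := by
    rw [continuous_iff_continuousAt]
    rintro ⟨k₀, x₀⟩
    rw [ContinuousAt, Metric.tendsto_nhds]
    intro ε hε
    obtain ⟨m, hm⟩ : ∃ m, dist k₀ (denseSeq G m) < ε / 8 := by
      obtain ⟨m, hy⟩ := (denseRange_denseSeq G).exists_dist_lt k₀ (by positivity : 0 < ε / 8)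
      exact ⟨m, hy⟩
    have h2 : ∀ᶠ p : G × X in 𝓝 (k₀, x₀), dist p.1 k₀ < ε / 8 := by
      have : Tendsto (fun p : G × X => p.1) (𝓝 (k₀, x₀)) (𝓝 k₀) := continuous_fst.tendsto _
      exact this (Metric.ball_mem_nhds k₀ (by positivity))
    have h3 : ∀ᶠ p : G × X in 𝓝 (k₀, x₀),
        dist (HB a P (denseSeq G m) p.2) (HB a P (denseSeq G m) x₀) < ε / 4 := by
      have : Tendsto (fun p : G × X => HB a P (denseSeq G m) p.2) (𝓝 (k₀, x₀))
          (𝓝 (HB a P (denseSeq G m) x₀)) := ((h m).comp continuous_snd).tendsto _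
      exact this (Metric.ball_mem_nhds _ (by positivity))
    filter_upwards [h2, h3] with p hp2 hp3
    have e1 := HB_lip (a := a) (P := P) p.1 (denseSeq G m) p.2
    have e2 := HB_lip (a := a) (P := P) (denseSeq G m) p.1 p.2
    have e3 := HB_lip (a := a) (P := P) k₀ (denseSeq G m) x₀
    have e4 := HB_lip (a := a) (P := P) (denseSeq G m) k₀ x₀
    have e5 : dist p.1 (denseSeq G m) ≤ dist p.1 k₀ + dist k₀ (denseSeq G m) := dist_triangle _ _ _
    rw [dist_comm (denseSeq G m)] at e2 e4
    rw [Real.dist_eq, abs_lt] at hp3 ⊢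
    constructor <;> linarith [hp3.1, hp3.2]
  have h2 : Continuous (fun p : G × X => (g * p.1, p.2)) := by fun_prop
  exact h1.comp h2

lemma sig_preimage {τ : TopologicalSpace X} (hτ : @PolishSpace X τ) {γ : Ordinal.{0}} (hγ : 1 ≤ γ)
    (h : X → ℝ) (h1 : ∀ r : ℝ, Sig τ γ {x | h x < r}) (h2 : ∀ r : ℝ, Sig τ γ {x | r < h x})
    {O : Set ℝ} (hO : IsOpen O) : Sig τ γ (h ⁻¹' O) := by
  have hb := Real.isTopologicalBasis_Ioo_rat
  obtain ⟨S, hS, rfl⟩ := hb.open_eq_sUnion hO
  obtain ⟨T, hT, hTS, hTU⟩ := isOpen_sUnion_countable S (fun s hs => hb.isOpen (hS hs))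
  rw [← hTU, preimage_sUnion]
  have := hT.to_subtype
  rw [biUnion_eq_iUnion]
  refine Sig.iUnion' hτ hγ fun V => ?_
  have := hS (hTS V.2)
  simp only [mem_iUnion, mem_singleton_iff] at this
  obtain ⟨p, q, -, hpq⟩ := this
  rw [hpq]
  have : h ⁻¹' Ioo (p : ℝ) q = {x | (p : ℝ) < h x} ∩ {x | h x < q} := by
    ext x
    simp
  rw [this]
  exact (h2 _).inter hτ (h1 _)

theorem good_union [PseudoMetricSpace G] [Group G] [IsTopologicalGroup G] [PolishSpace G]
    (hinv : ∀ x y b : G, dist (x * b) (y * b) = dist x y)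
    {τ : TopologicalSpace X} (hτ : @PolishSpace X τ) {a : G × X → X}
    (ha : ∀ (g h : G) (x : X), a (g * h, x) = a (g, a (h, x)))
    (hcont : @Continuous (G × X) X
      (TopologicalSpace.induced Prod.fst inferInstance ⊓ TopologicalSpace.induced Prod.snd τ) τ a)
    {γ : Ordinal.{0}} {f : ℕ → Set X}
    (hf : ∀ n : ℕ, ∃ β : Ordinal.{0}, 1 ≤ β ∧ β < γ ∧ Sig τ β (f n)ᶜ ∧ Good τ a β (f n)ᶜ) :
    Good τ a γ (⋃ n, f n) := by
  intro v hv
  have hγ : 1 ≤ γ := by
    obtain ⟨β, h1, h2, -⟩ := hf 0
    exact h1.trans h2.le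
  choose β hβ1 hβγ hsig hgood using hf
  choose T hTP hTτ hTo hTc hTs using fun i : ℕ × ℕ × ℚ =>
    hgood i.1 (ball (denseSeq G i.2.1) (i.2.2 : ℝ)) isOpen_ball
  -- the join of all these topologies
  let T' : Option (ℕ × ℕ × ℚ) → TopologicalSpace X := fun i => i.elim τ T
  let t' : TopologicalSpace X := ⨅ i, T' i
  have ht'P : @PolishSpace X t' :=
    .iInf ⟨none, Option.forall.2 ⟨le_rfl, hTτ⟩⟩ (Option.forall.2 ⟨hτ, hTP⟩)
  have ht'τ : t' ≤ τ := iInf_le T' none
  have ht'T : ∀ i, t' ≤ T i := fun i => iInf_le T' (some i)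
  have ht'c : @Continuous (G × X) X
      (TopologicalSpace.induced Prod.fst inferInstance ⊓ TopologicalSpace.induced Prod.snd t')
      t' a := actCont_iInf (Option.forall.2 ⟨hcont, hTc⟩)
  have ht'sig : ∀ U : Set X, @IsOpen X t' U → Sig τ γ U := by
    intro U hU
    refine Sig.of_generateFrom hτ hγ t' (@PolishSpace.toSecondCountableTopology X t' ht'P)
      (generateFrom_iUnion_isOpen T').symm ?_ hU
    intro V hV
    obtain ⟨i, hi⟩ := mem_iUnion.mp hV
    cases i with
    | none => exact Sig.of_isOpen hγ hi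
    | some i => exact (hTs i V hi).mono (hβγ i.1).le
  -- upper semicontinuity
  have hMopen : ∀ (n m : ℕ) (q : ℚ), @IsOpen X t' {x | ¬ MB a (f n)ᶜ (denseSeq G m) x q} := by
    intro n m q
    exact ht'T (n, m, q) _ (hTo (n, m, q))
  have hMsig : ∀ (n m : ℕ) (q : ℚ), Sig τ (β n) {x | ¬ MB a (f n)ᶜ (denseSeq G m) x q} := by
    intro n m q
    exact hTs (n, m, q) _ (hTo (n, m, q))
  have hlt : ∀ (n m : ℕ) (r : ℝ), @IsOpen X t' {x | HB a (f n)ᶜ (denseSeq G m) x < r} := by
    intro n m r
    have : {x | HB a (f n)ᶜ (denseSeq G m) x < r} = {x : X | 1 < r} ∪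
        ⋃ q : {q : ℚ // (q : ℝ) < r}, {x | ¬ MB a (f n)ᶜ (denseSeq G m) x (q.1 : ℝ)} := by
      ext x
      simp only [mem_ofPred_eq, HB_lt_iff, mem_union, mem_iUnion, Subtype.exists, exists_prop]
    rw [this]
    let _ := t'
    exact isOpen_const.union (isOpen_iUnion fun q => hMopen n m q.1)
  have hgt : ∀ (n m : ℕ) (r : ℝ), Sig τ γ {x | r < HB a (f n)ᶜ (denseSeq G m) x} := by
    intro n m r
    have : {x | r < HB a (f n)ᶜ (denseSeq G m) x} =
        ⋃ q : {q : ℚ // r < (q : ℝ)},
          ({x | ¬ MB a (f n)ᶜ (denseSeq G m) x (q.1 : ℝ)}ᶜ ∩ {x : X | (q.1 : ℝ) ≤ 1}) := by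
      ext x
      simp only [mem_ofPred_eq, mem_iUnion, Subtype.exists, mem_inter_iff, mem_compl_iff, not_not]
      constructor
      · intro hx
        obtain ⟨q, h1, h2⟩ := exists_rat_btwn hx
        exact ⟨q, h1, MB_of_lt_HB h2, h2.le.trans (HB_le_one _ _)⟩
      · rintro ⟨q, h1, h2, h3⟩
        exact h1.trans_le (le_HB h3 h2)
    rw [this]
    refine Sig.iUnion' hτ hγ fun q => ?_
    refine Sig.inter hτ ?_ ?_
    · have e : {x | ¬ MB a (f n)ᶜ (denseSeq G m) x (q.1 : ℝ)}ᶜ =
          ⋃ _ : ℕ, {x | ¬ MB a (f n)ᶜ (denseSeq G m) x (q.1 : ℝ)}ᶜ := (iUnion_const _).symm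
      rw [e]
      refine Sig.of_iUnion_compl fun _ => ⟨β n, hβ1 n, hβγ n, ?_⟩
      rw [compl_compl]
      exact hMsig n m q.1
    · exact Sig.of_isOpen hγ (@isOpen_const X τ _)
  -- the refined topology
  let T'' : Option (ℕ × ℕ) → TopologicalSpace X := fun j =>
    j.elim t' (fun j => t' ⊓ TopologicalSpace.induced (fun x => HB a (f j.1)ᶜ (denseSeq G j.2) x)
      inferInstance)
  let t : TopologicalSpace X := ⨅ j, T'' j
  have htP : @PolishSpace X t := by
    refine .iInf ⟨none, Option.forall.2 ⟨le_rfl, fun j => inf_le_left⟩⟩ (Option.forall.2 ⟨ht'P, ?_⟩)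
    intro j
    exact polishSpace_inf_induced t' ht'P _ (hlt j.1 j.2)
  have htt' : t ≤ t' := iInf_le T'' none
  have hHc : ∀ n m : ℕ, @Continuous X ℝ t _ (fun x => HB a (f n)ᶜ (denseSeq G m) x) := by
    intro n m
    rw [continuous_iff_le_induced]
    exact (iInf_le T'' (some (n, m))).trans inf_le_right
  have htc : @Continuous (G × X) X
      (TopologicalSpace.induced Prod.fst inferInstance ⊓ TopologicalSpace.induced Prod.snd t)
      t a := by
    refine continuous_iInf_rng.mpr fun j => ?_
    have h1 : @Continuous (G × X) X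
        (TopologicalSpace.induced Prod.fst inferInstance ⊓ TopologicalSpace.induced Prod.snd t)
        t' a := continuous_le_dom (inf_le_inf_left _ (induced_mono htt')) ht'c
    cases j with
    | none => exact h1
    | some j =>
      change @Continuous (G × X) X
        (TopologicalSpace.induced Prod.fst inferInstance ⊓ TopologicalSpace.induced Prod.snd t)
        (t' ⊓ TopologicalSpace.induced (fun x => HB a (f j.1)ᶜ (denseSeq G j.2) x)
          inferInstance) a
      have h3 : @Continuous (G × X) X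
          (TopologicalSpace.induced Prod.fst inferInstance ⊓ TopologicalSpace.induced Prod.snd t)
          (TopologicalSpace.induced (fun x => HB a (f j.1)ᶜ (denseSeq G j.2) x)
            inferInstance) a := ?_
      · exact continuous_inf_rng.mpr ⟨h1, h3⟩
      refine continuous_induced_rng.mpr ?_
      have h2 := continuous_HB t (a := a) (P := (f j.1)ᶜ) (hHc j.1) (denseSeq G j.2)
      refine Continuous.congr h2 ?_
      rintro ⟨k, x⟩
      exact (HB_act hinv ha _ k x).symm
  have htsig : ∀ U : Set X, @IsOpen X t U → Sig τ γ U := by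
    intro U hU
    -- a generating family
    have hgen : t = generateFrom ({U | @IsOpen X t' U} ∪ ⋃ j : ℕ × ℕ,
        {U | ∃ O : Set ℝ, IsOpen O ∧ (fun x => HB a (f j.1)ᶜ (denseSeq G j.2) x) ⁻¹' O = U}) := by
      apply le_antisymm
      · refine le_generateFrom ?_
        rintro V (hV | hV)
        · exact htt' _ hV
        · obtain ⟨j, O, hO, rfl⟩ := mem_iUnion.mp hV
          exact hO.preimage (hHc j.1 j.2)
      · refine le_iInf (Option.forall.2 ⟨?_, ?_⟩)
        · intro V hV
          exact isOpen_generateFrom_of_mem (Or.inl hV)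
        · intro j
          refine le_inf ?_ ?_
          · intro V hV
            exact isOpen_generateFrom_of_mem (Or.inl hV)
          · rintro V ⟨O, hO, rfl⟩
            exact isOpen_generateFrom_of_mem (Or.inr (mem_iUnion.mpr ⟨j, O, hO, rfl⟩))
    refine Sig.of_generateFrom hτ hγ t (@PolishSpace.toSecondCountableTopology X t htP) hgen ?_ hU
    rintro V (hV | hV)
    · exact ht'sig V hV
    · obtain ⟨j, O, hO, rfl⟩ := mem_iUnion.mp hV
      exact sig_preimage hτ hγ _ (fun r => ht'sig _ (hlt j.1 j.2 r)) (hgt j.1 j.2) hO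
  refine ⟨t, htP, htt'.trans ht'τ, ?_, htc, htsig⟩
  -- the Vaught transform is open
  have hQ : {x : X | ¬ IsMeagre {g : G | g ∈ v ∧ a (g, x) ∈ ⋃ n, f n}} =
      ⋃ (n : ℕ) (m : {m : ℕ // denseSeq G m ∈ v}),
        {x | 0 < HB a (f n)ᶜ (denseSeq G m.1) x} := by
    ext x
    simp only [mem_iUnion, mem_ofPred_eq]
    constructor
    · intro hx
      have h1 : ∃ n, ¬ IsMeagre {g : G | g ∈ v ∧ a (g, x) ∈ f n} := by
        by_contra hn
        push Not at hn
        apply hx
        refine IsMeagre.mono ?_ (isMeagre_iUnion hn)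
        rintro g ⟨hg, hgx⟩
        obtain ⟨n, hn⟩ := hgx
        exact mem_iUnion.mpr ⟨n, hg, hn⟩
      obtain ⟨n, hn⟩ := h1
      -- the set has the property of Baire
      let _ : MeasurableSpace G := borel G
      have _ : BorelSpace G := ⟨rfl⟩
      have hsec : @Continuous G X _ τ (fun g => a (g, x)) := by
        let _ := τ
        have h2 : Continuous (fun g : G => (g, x)) := by fun_prop
        exact Continuous.comp (Y := G × X) hcont h2
      have hmeas : MeasurableSet {g : G | a (g, x) ∈ f n} := by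
        have h3 : @MeasurableSet X (@borel X τ) (f n)ᶜ := (hsig n).measurable
        have h4 : @MeasurableSet X (@borel X τ) (f n) :=
          (@MeasurableSet.compl_iff X _ (@borel X τ)).mp h3
        let _ := τ
        let _ : MeasurableSpace X := borel X
        have _ : BorelSpace X := ⟨rfl⟩
        exact hsec.measurable h4
      obtain ⟨U, hU, hKU⟩ := (hv.measurableSet.inter hmeas).residualEq_isOpen
      -- `U` meets `v`
      have hres : ∀ᶠ g in residual G, (g ∈ v ∧ a (g, x) ∈ f n) ↔ g ∈ U := by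
        filter_upwards [hKU] with g hg
        exact (iff_of_eq hg)
      have hUv : (U ∩ v).Nonempty := by
        by_contra hne
        rw [not_nonempty_iff_eq_empty] at hne
        apply hn
        rw [IsMeagre]
        filter_upwards [hres] with g hg
        intro hg'
        have h5 : g ∈ U := hg.mp hg'
        have : g ∈ U ∩ v := ⟨h5, hg'.1⟩
        rw [hne] at this
        exact this
      obtain ⟨y, hy, m, rfl⟩ := (denseRange_denseSeq G).inter_open_nonempty _
        (hU.inter hv) hUv
      refine ⟨n, ⟨m, hy.2⟩, ?_⟩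
      obtain ⟨r, hr, hrU⟩ := Metric.isOpen_iff.mp (hU.inter hv) _ hy
      have h6 : MB a (f n)ᶜ (denseSeq G m) x (min r 1) := by
        rw [MB, IsMeagre]
        filter_upwards [hres] with g hg
        rintro ⟨h7, h8⟩
        have h9 : g ∈ U ∩ v := hrU (ball_subset_ball (min_le_left _ _) h7)
        exact h8 (hg.mpr h9.1).2
      exact (lt_min hr one_pos).trans_le (le_HB (min_le_right _ _) h6)
    · rintro ⟨n, ⟨m, hm⟩, hx⟩ hmeag
      obtain ⟨r, hr, hrv⟩ := Metric.isOpen_iff.mp hv _ hm
      obtain ⟨s, hs0, hs⟩ := exists_between hx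
      have h1 : MB a (f n)ᶜ (denseSeq G m) x (min r s) := (MB_of_lt_HB hs).mono (min_le_right _ _)
      have h2 : IsMeagre (ball (denseSeq G m) (min r s)) := by
        refine IsMeagre.mono ?_ (h1.union hmeag)
        intro g hg
        by_cases hgn : a (g, x) ∈ f n
        · exact Or.inr ⟨hrv (ball_subset_ball (min_le_left _ _) hg), ⟨n, hgn⟩⟩
        · exact Or.inl ⟨hg, hgn⟩
      have h3 : (ball (denseSeq G m) (min r s)).Nonempty :=
        ⟨_, mem_ball_self (lt_min hr hs0)⟩
      exact not_isMeagre_of_isOpen isOpen_ball h3 h2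
  rw [hQ]
  let _ := t
  refine isOpen_iUnion fun n => isOpen_iUnion fun m => ?_
  exact isOpen_lt continuous_const (hHc n m.1)

end Pool.Agent.H681R2
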