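import Pool.Agent.H681R2.RightInv
import Pool.Agent.H681R2.SigClass
import Pool.Agent.H681R2.PolishUsc

/-!
# The inductive step: refining an admissible topology by distance functions
-/

set_option autoImplicit false

namespace Pool.Agent.H681R2

open Set Function Filter Topology TopologicalSpace Metric

/-- Every Vaught transform of `P` is made open by an admissible topology contained in `Σ⁰_γ`. -/
def Good {G X : Type} [tG : TopologicalSpace G] (τ : TopologicalSpace X) (a : G × X → X)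
    (γ : Ordinal.{0}) (P : Set X) : Prop :=
  ∀ v : Set G, IsOpen v → ∃ t : TopologicalSpace X, @PolishSpace X t ∧ t ≤ τ ∧
    @IsOpen X t {x : X | ¬ IsMeagre {g : G | g ∈ v ∧ a (g, x) ∈ P}} ∧
    @Continuous (G × X) X
      (TopologicalSpace.induced Prod.fst tG ⊓ TopologicalSpace.induced Prod.snd t) t a ∧
    ∀ U : Set X, @IsOpen X t U → Sig τ γ U

section

variable {G X : Type} [PseudoMetricSpace G]

/-- for almost all `k` in the ball, `k x ∉ P` -/
def MB (a : G × X → X) (P : Set X) (g : G) (x : X) (r : ℝ) : Prop :=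
  IsMeagre {k : G | k ∈ ball g r ∧ a (k, x) ∈ P}

/-- distance of `g` to the set of points near which `k x ∈ P` for nonmeagerly many `k`, truncated
at `1` -/
noncomputable def HB (a : G × X → X) (P : Set X) (g : G) (x : X) : ℝ :=
  sSup {r : ℝ | 0 ≤ r ∧ r ≤ 1 ∧ MB a P g x r}

variable {a : G × X → X} {P : Set X}

lemma MB.mono {g : G} {x : X} {r s : ℝ} (h : MB a P g x r) (hs : s ≤ r) : MB a P g x s := by
  refine IsMeagre.mono ?_ h
  rintro k ⟨hk, hk'⟩
  exact ⟨ball_subset_ball hs hk, hk'⟩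

lemma MB.of_nonpos {g : G} {x : X} {r : ℝ} (hr : r ≤ 0) : MB a P g x r := by
  have : {k : G | k ∈ ball g r ∧ a (k, x) ∈ P} = ∅ := by
    rw [ball_eq_empty.mpr hr]
    ext k
    simp
  rw [MB, this]
  exact IsMeagre.empty

lemma MB.of_forall_lt {g : G} {x : X} {r : ℝ} (h : ∀ q : ℚ, (q : ℝ) < r → MB a P g x q) :
    MB a P g x r := by
  have : {k : G | k ∈ ball g r ∧ a (k, x) ∈ P} ⊆
      ⋃ q : {q : ℚ // (q : ℝ) < r}, {k : G | k ∈ ball g (q.1 : ℝ) ∧ a (k, x) ∈ P} := by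
    rintro k ⟨hk, hk'⟩
    obtain ⟨q, h1, h2⟩ := exists_rat_btwn (mem_ball.mp hk)
    exact mem_iUnion.mpr ⟨⟨q, h2⟩, h1, hk'⟩
  exact IsMeagre.mono this (isMeagre_iUnion fun q => h q.1 q.2)

lemma HB_bdd (g : G) (x : X) : BddAbove {r : ℝ | 0 ≤ r ∧ r ≤ 1 ∧ MB a P g x r} :=
  ⟨1, fun _ hr => hr.2.1⟩

lemma HB_zero_mem (g : G) (x : X) : (0 : ℝ) ∈ {r : ℝ | 0 ≤ r ∧ r ≤ 1 ∧ MB a P g x r} :=
  ⟨le_rfl, zero_le_one, MB.of_nonpos le_rfl⟩

lemma HB_nonneg (g : G) (x : X) : 0 ≤ HB a P g x := le_csSup (HB_bdd g x) (HB_zero_mem g x)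

lemma HB_le_one (g : G) (x : X) : HB a P g x ≤ 1 :=
  csSup_le ⟨0, HB_zero_mem g x⟩ fun _ hr => hr.2.1

lemma le_HB {g : G} {x : X} {r : ℝ} (hr : r ≤ 1) (h : MB a P g x r) : r ≤ HB a P g x := by
  rcases le_or_gt 0 r with h0 | h0
  · exact le_csSup (HB_bdd g x) ⟨h0, hr, h⟩
  · exact h0.le.trans (HB_nonneg g x)

lemma HB_le {g : G} {x : X} {r : ℝ} (h : ¬ MB a P g x r) : HB a P g x ≤ r := by
  refine csSup_le ⟨0, HB_zero_mem g x⟩ fun s hs => ?_
  by_contra hlt
  exact h (hs.2.2.mono (not_le.mp hlt).le)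

lemma MB_of_lt_HB {g : G} {x : X} {r : ℝ} (h : r < HB a P g x) : MB a P g x r := by
  by_contra hn
  exact absurd (HB_le hn) (not_le.mpr h)

lemma HB_lt_iff {g : G} {x : X} {r : ℝ} :
    HB a P g x < r ↔ 1 < r ∨ ∃ q : ℚ, (q : ℝ) < r ∧ ¬ MB a P g x q := by
  constructor
  · intro h
    by_contra hn
    push Not at hn
    exact absurd (le_HB hn.1 (MB.of_forall_lt hn.2)) (not_le.mpr h)
  · rintro (h | ⟨q, h1, h2⟩)
    · exact (HB_le_one g x).trans_lt h
    · exact (HB_le h2).trans_lt h1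

lemma HB_lip (g g' : G) (x : X) : HB a P g x ≤ HB a P g' x + dist g g' := by
  refine csSup_le ⟨0, HB_zero_mem g x⟩ fun r hr => ?_
  have h1 : MB a P g' x (r - dist g g') := by
    refine IsMeagre.mono ?_ hr.2.2
    rintro k ⟨hk, hk'⟩
    refine ⟨?_, hk'⟩
    rw [mem_ball] at hk ⊢
    have := dist_triangle k g' g
    rw [dist_comm g' g] at this
    linarith
  have h2 : r - dist g g' ≤ 1 := by
    have := hr.2.1
    have := dist_nonneg (x := g) (y := g')
    linarith
  have := le_HB h2 h1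
  linarith

variable [Group G] [IsTopologicalGroup G]

lemma MB_act (hinv : ∀ x y b : G, dist (x * b) (y * b) = dist x y)
    (ha : ∀ (g h : G) (x : X), a (g * h, x) = a (g, a (h, x))) (g k : G) (x : X) (r : ℝ) :
    MB a P g (a (k, x)) r ↔ MB a P (g * k) x r := by
  have h1 : {l : G | l ∈ ball g r ∧ a (l, a (k, x)) ∈ P} =
      (Homeomorph.mulRight k) ⁻¹' {l : G | l ∈ ball (g * k) r ∧ a (l, x) ∈ P} := by
    ext l
    simp only [mem_ofPred_eq, mem_preimage, Homeomorph.coe_mulRight, mem_ball, hinv, ha]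
  have h2 : {l : G | l ∈ ball (g * k) r ∧ a (l, x) ∈ P} =
      (Homeomorph.mulRight k).symm ⁻¹' {l : G | l ∈ ball g r ∧ a (l, a (k, x)) ∈ P} := by
    rw [h1, ← preimage_comp]
    have h3 : (Homeomorph.mulRight k) ∘ (Homeomorph.mulRight k).symm = id := by
      funext l
      exact Homeomorph.apply_symm_apply _ l
    rw [h3, preimage_id]
  constructor
  · intro h
    rw [MB, h2]
    exact IsMeagre.preimage_of_isOpenMap (Homeomorph.continuous _) (Homeomorph.isOpenMap _) h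
  · intro h
    rw [MB, h1]
    exact IsMeagre.preimage_of_isOpenMap (Homeomorph.continuous _) (Homeomorph.isOpenMap _) h

lemma HB_act (hinv : ∀ x y b : G, dist (x * b) (y * b) = dist x y)
    (ha : ∀ (g h : G) (x : X), a (g * h, x) = a (g, a (h, x))) (g k : G) (x : X) :
    HB a P g (a (k, x)) = HB a P (g * k) x := by
  simp only [HB, MB_act hinv ha]

end

end Pool.Agent.H681R2
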